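import Mathlib

/-!
Lower bound for Ramsey numbers of graphs without isolated vertices (Burr and Erdos), counting proof.
-/

set_option autoImplicit false

namespace Pool.Agent.H866R3.Burr

open SimpleGraph Finset

/-- The colourings for which every vertex of `W` sees a vertex of `D` in colour `b`. -/
def evt {N : ℕ} (D W : Finset (Fin N)) (b : Bool) : Finset (Sym2 (Fin N) → Bool) :=
  Finset.univ.filter (fun c => ∀ w ∈ W, ∃ d ∈ D, c s(w, d) = b)

lemma card_fun_ne (m : ℕ) (b : Bool) (D : Type) [Fintype D] [DecidableEq D]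
    (hD : Fintype.card D = m) :
    Fintype.card {f : D → Bool // ∃ d, f d = b} = 2 ^ m - 1 := by
  have h1 : Fintype.card {f : D → Bool // ¬ (∃ d, f d = b)} = 1 := by
    rw [Fintype.card_eq_one_iff]
    refine ⟨⟨fun _ => !b, by simp⟩, ?_⟩
    rintro ⟨f, hf⟩
    apply Subtype.ext
    funext d
    have : f d ≠ b := fun h => hf ⟨d, h⟩
    simp only
    cases hfd : f d <;> cases hb : b <;> simp_all
  have h2 := Fintype.card_subtype_compl (fun f : D → Bool => ∃ d, f d = b)
  have h3 : Fintype.card (D → Bool) = 2 ^ m := by simp [hD]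
  have h4 : Fintype.card {f : D → Bool // ∃ d, f d = b} ≤ Fintype.card (D → Bool) :=
    Fintype.card_subtype_le _
  omega

lemma card_evt_le {N : ℕ} (D W : Finset (Fin N)) (hDW : Disjoint D W) (b : Bool) :
    (evt D W b).card ≤ (2 ^ D.card - 1) ^ W.card *
      2 ^ (Fintype.card (Sym2 (Fin N)) - W.card * D.card) := by
  classical
  set p : Sym2 (Fin N) → Prop := fun e => e ∈ (W ×ˢ D).image (fun q => s(q.1, q.2)) with hp
  have hcardp : Fintype.card {x // ¬ p x} = Fintype.card (Sym2 (Fin N)) - W.card * D.card := by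
    rw [Fintype.card_subtype_compl]
    congr 1
    rw [Fintype.card_subtype]
    have : (Finset.univ.filter p) = (W ×ˢ D).image (fun q => s(q.1, q.2)) := by
      ext e; simp [hp]
    rw [this, Finset.card_image_of_injOn, Finset.card_product]
    rintro ⟨w, d⟩ h1 ⟨w', d'⟩ h2 h
    simp only [Finset.coe_product, Set.mem_prod, Finset.mem_coe] at h1 h2
    simp only [Sym2.eq_iff] at h
    rcases h with ⟨h3, h4⟩ | ⟨h3, h4⟩
    · simp [h3, h4]
    · exact absurd (h3 ▸ h1.1) (Finset.disjoint_left.mp hDW h2.2)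
  have h5 : Fintype.card {c // c ∈ evt D W b} ≤
      Fintype.card ((W → {f : D → Bool // ∃ d, f d = b}) × ({x // ¬ p x} → Bool)) := by
    refine Fintype.card_le_of_injective
      (fun c => (fun w => ⟨fun d => c.1 s(w.1, d.1), ?_⟩, fun x => c.1 x.1)) ?_
    · have := c.2
      simp only [evt, Finset.mem_filter, Finset.mem_univ, true_and] at this
      obtain ⟨d, hd, hcd⟩ := this w.1 w.2
      exact ⟨⟨d, hd⟩, hcd⟩
    · rintro ⟨c, hc⟩ ⟨c', hc'⟩ h
      simp only [Prod.mk.injEq] at h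
      apply Subtype.ext
      funext e
      by_cases he : p e
      · simp only [hp, Finset.mem_image, Finset.mem_product] at he
        obtain ⟨⟨w, d⟩, ⟨hw, hd⟩, rfl⟩ := he
        have h6 := congrFun h.1 ⟨w, hw⟩
        have h7 := congrArg Subtype.val h6
        exact congrFun h7 ⟨d, hd⟩
      · exact congrFun h.2 ⟨e, he⟩
  rw [Fintype.card_prod, Fintype.card_fun, Fintype.card_fun, hcardp, Fintype.card_bool,
    card_fun_ne D.card b D (by simp)] at h5
  simpa using h5

lemma card_evt_le_real {N : ℕ} (D W : Finset (Fin N)) (hDW : Disjoint D W) (b : Bool) :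
    ((evt D W b).card : ℝ) ≤ 2 ^ (Fintype.card (Sym2 (Fin N))) *
      (1 - (1 / 2 : ℝ) ^ D.card) ^ W.card := by
  classical
  have h := card_evt_le D W hDW b
  have hle : W.card * D.card ≤ Fintype.card (Sym2 (Fin N)) := by
    rw [← Finset.card_product]
    rw [← Finset.card_image_of_injOn (f := fun q : Fin N × Fin N => s(q.1, q.2)) (s := W ×ˢ D)]
    · exact Finset.card_le_univ _
    · rintro ⟨w, d⟩ h1 ⟨w', d'⟩ h2 h
      simp only [Finset.coe_product, Set.mem_prod, Finset.mem_coe] at h1 h2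
      simp only [Sym2.eq_iff] at h
      rcases h with ⟨h3, h4⟩ | ⟨h3, h4⟩
      · simp [h3, h4]
      · exact absurd (h3 ▸ h1.1) (Finset.disjoint_left.mp hDW h2.2)
  have h1 : ((evt D W b).card : ℝ) ≤ ((2 : ℝ) ^ D.card - 1) ^ W.card *
      2 ^ (Fintype.card (Sym2 (Fin N)) - W.card * D.card) := by
    have h2 : (((2 ^ D.card - 1) ^ W.card *
      2 ^ (Fintype.card (Sym2 (Fin N)) - W.card * D.card) : ℕ) : ℝ) =
      ((2 : ℝ) ^ D.card - 1) ^ W.card *
      2 ^ (Fintype.card (Sym2 (Fin N)) - W.card * D.card) := by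
      push_cast [Nat.cast_sub (Nat.one_le_two_pow (n := D.card))]
      ring
    rw [← h2]
    exact_mod_cast h
  refine h1.trans (le_of_eq ?_)
  have h3 : (1 - (1 / 2 : ℝ) ^ D.card) = ((2 : ℝ) ^ D.card - 1) / 2 ^ D.card := by
    rw [sub_div, div_self (by positivity), one_div, one_div, inv_pow]
  rw [h3, div_pow, ← pow_mul, mul_comm D.card W.card]
  rw [← mul_div_assoc, eq_div_iff (by positivity), mul_assoc, ← pow_add,
    Nat.sub_add_cancel hle]
  ring

/-- A good colouring: no `a`-set `D` and `(a-1)`-set `U` such that every vertex outside `D ∪ U`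
sees `D` in colour `b`. -/
lemma exists_good (N a : ℕ) (ha : 2 * a ≤ N + 1)
    (hsmall : 2 * (N : ℝ) ^ (2 * a) * (1 - (1 / 2 : ℝ) ^ a) ^ (N + 1 - 2 * a) < 1) (ha1 : 1 ≤ a) :
    ∃ c : Sym2 (Fin N) → Bool, ∀ b : Bool, ∀ D U : Finset (Fin N), D.card = a →
      U.card = a - 1 → ∃ w, w ∉ D ∧ w ∉ U ∧ ∀ d ∈ D, c s(w, d) ≠ b := by
  classical
  by_contra hcon
  push Not at hcon
  have hcov : (Finset.univ : Finset (Sym2 (Fin N) → Bool)) ⊆
      (Finset.univ : Finset Bool).biUnion (fun b =>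
        ((Finset.univ : Finset (Fin N)).powersetCard a).biUnion (fun D =>
          ((Finset.univ : Finset (Fin N)).powersetCard (a - 1)).biUnion (fun U =>
            evt D (D ∪ U)ᶜ b))) := by
    intro c _
    obtain ⟨b, D, U, hD, hU, h⟩ := hcon c
    simp only [Finset.mem_biUnion, Finset.mem_univ, true_and, Finset.mem_powersetCard,
      Finset.subset_univ, evt, Finset.mem_filter, Finset.mem_compl, Finset.mem_union, not_or]
    exact ⟨b, D, hD, U, hU, fun w hw => h w hw.1 hw.2⟩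
  have h0 : (0:ℝ) ≤ 1 - (1 / 2 : ℝ) ^ a := by
    have : (1 / 2 : ℝ) ^ a ≤ 1 := pow_le_one₀ (by norm_num) (by norm_num)
    linarith
  have h1' : 1 - (1 / 2 : ℝ) ^ a ≤ 1 := by
    have : (0:ℝ) ≤ (1 / 2 : ℝ) ^ a := by positivity
    linarith
  set q : ℝ := (1 - (1 / 2 : ℝ) ^ a) ^ (N + 1 - 2 * a) with hq
  have hq0 : 0 ≤ q := pow_nonneg h0 _
  have hone : ∀ b : Bool, ∀ D ∈ ((Finset.univ : Finset (Fin N)).powersetCard a),
      ∀ U ∈ ((Finset.univ : Finset (Fin N)).powersetCard (a - 1)),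
      ((evt D (D ∪ U)ᶜ b).card : ℝ) ≤ 2 ^ (Fintype.card (Sym2 (Fin N))) * q := by
    intro b D hD U hU
    simp only [Finset.mem_powersetCard, Finset.subset_univ, true_and] at hD hU
    refine (card_evt_le_real D (D ∪ U)ᶜ ?_ b).trans ?_
    · rw [Finset.disjoint_left]
      intro x hx hx'
      simp [hx] at hx'
    · rw [hD]
      refine mul_le_mul_of_nonneg_left ?_ (by positivity)
      refine pow_le_pow_of_le_one h0 h1' ?_
      rw [Finset.card_compl, Fintype.card_fin]
      have := Finset.card_union_le D U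
      omega
  have hcard : ((2 : ℝ) ^ (Fintype.card (Sym2 (Fin N)))) ≤
      2 * ((N : ℝ) ^ a * ((N : ℝ) ^ (a - 1) * (2 ^ (Fintype.card (Sym2 (Fin N))) * q))) := by
    have e1 : ((2 : ℝ) ^ (Fintype.card (Sym2 (Fin N)))) =
        (((Finset.univ : Finset (Sym2 (Fin N) → Bool)).card : ℕ) : ℝ) := by
      simp [Finset.card_univ]
    have e2 : (((Finset.univ : Finset (Sym2 (Fin N) → Bool)).card : ℕ) : ℝ) ≤
        (((Finset.univ : Finset Bool).biUnion (fun b =>
        ((Finset.univ : Finset (Fin N)).powersetCard a).biUnion (fun D =>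
          ((Finset.univ : Finset (Fin N)).powersetCard (a - 1)).biUnion (fun U =>
            evt D (D ∪ U)ᶜ b)))).card : ℝ) := by
      exact_mod_cast Finset.card_le_card hcov
    have e3 : ∀ b : Bool, ∀ D ∈ ((Finset.univ : Finset (Fin N)).powersetCard a),
        ((((Finset.univ : Finset (Fin N)).powersetCard (a - 1)).biUnion (fun U =>
            evt D (D ∪ U)ᶜ b)).card : ℝ) ≤
          (N : ℝ) ^ (a - 1) * (2 ^ (Fintype.card (Sym2 (Fin N))) * q) := by
      intro b D hD
      refine le_trans (Nat.cast_le.mpr Finset.card_biUnion_le) ?_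
      push_cast
      refine (Finset.sum_le_card_nsmul _ _ _ (hone b D hD)).trans ?_
      rw [Finset.card_powersetCard, nsmul_eq_mul, Finset.card_univ, Fintype.card_fin]
      refine mul_le_mul_of_nonneg_right ?_ (by positivity)
      exact_mod_cast Nat.choose_le_pow N (a - 1)
    have e4 : ∀ b : Bool,
        ((((Finset.univ : Finset (Fin N)).powersetCard a).biUnion (fun D =>
          ((Finset.univ : Finset (Fin N)).powersetCard (a - 1)).biUnion (fun U =>
            evt D (D ∪ U)ᶜ b))).card : ℝ) ≤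
          (N : ℝ) ^ a * ((N : ℝ) ^ (a - 1) * (2 ^ (Fintype.card (Sym2 (Fin N))) * q)) := by
      intro b
      refine le_trans (Nat.cast_le.mpr Finset.card_biUnion_le) ?_
      push_cast
      refine (Finset.sum_le_card_nsmul _ _ _ (e3 b)).trans ?_
      rw [Finset.card_powersetCard, nsmul_eq_mul, Finset.card_univ, Fintype.card_fin]
      refine mul_le_mul_of_nonneg_right ?_ (by positivity)
      exact_mod_cast Nat.choose_le_pow N a
    rw [e1]
    refine e2.trans ?_
    refine le_trans (Nat.cast_le.mpr Finset.card_biUnion_le) ?_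
    push_cast
    refine (Finset.sum_le_card_nsmul _ _ _ (fun b _ => e4 b)).trans ?_
    rw [← e1]
    simp
  by_cases hN : N = 0
  · omega
  have hN1 : (1:ℝ) ≤ N := by exact_mod_cast Nat.one_le_iff_ne_zero.mpr hN
  have hP : (0:ℝ) < 2 ^ (Fintype.card (Sym2 (Fin N))) := by positivity
  have h6 : 2 * ((N : ℝ) ^ a * ((N : ℝ) ^ (a - 1) * (2 ^ (Fintype.card (Sym2 (Fin N))) * q))) ≤
      (2 * (N : ℝ) ^ (2 * a) * q) * 2 ^ (Fintype.card (Sym2 (Fin N))) := by
    have h7 : (N : ℝ) ^ (a - 1) ≤ (N : ℝ) ^ a := pow_le_pow_right₀ hN1 (by omega)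
    have h8 : (N : ℝ) ^ a * ((N : ℝ) ^ (a - 1) * (2 ^ (Fintype.card (Sym2 (Fin N))) * q)) ≤
        (N : ℝ) ^ a * ((N : ℝ) ^ a * (2 ^ (Fintype.card (Sym2 (Fin N))) * q)) := by
      gcongr
    calc _ ≤ 2 * ((N : ℝ) ^ a * ((N : ℝ) ^ a * (2 ^ (Fintype.card (Sym2 (Fin N))) * q))) := by
          linarith
      _ = _ := by ring
  have h9 : (2 : ℝ) ^ (Fintype.card (Sym2 (Fin N))) <
      1 * 2 ^ (Fintype.card (Sym2 (Fin N))) := by
    refine lt_of_le_of_lt (hcard.trans h6) ?_
    exact mul_lt_mul_of_pos_right hsmall hP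
  linarith

/-- From a good colouring, no graph with a small dominating set embeds. -/
lemma not_contained {n N a : ℕ} (c : Sym2 (Fin N) → Bool) (b : Bool)
    (hc : ∀ D U : Finset (Fin N), D.card = a →
      U.card = a - 1 → ∃ w, w ∉ D ∧ w ∉ U ∧ ∀ d ∈ D, c s(w, d) ≠ b)
    (hN : N + 1 = n + a) (haN : a ≤ N) (G : SimpleGraph (Fin n)) (C : Finset (Fin n))
    (hC : C.card ≤ a) (hdom : ∀ v, v ∉ C → ∃ u ∈ C, G.Adj v u)
    (H : SimpleGraph (Fin N)) (hH : ∀ x y, H.Adj x y → c s(x, y) = b) : ¬ G ⊑ H := by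
  classical
  rintro ⟨f⟩
  have hinj : Function.Injective f := f.injective
  obtain ⟨D, hCD, hD⟩ := Finset.exists_superset_card_eq (s := C.image f) (n := a)
    (Finset.card_image_le.trans hC) (by simpa using haN)
  set U : Finset (Fin N) := (Finset.univ.image f)ᶜ with hU
  have hUc : U.card = a - 1 := by
    rw [hU, Finset.card_compl, Finset.card_image_of_injective _ hinj, Finset.card_univ,
      Fintype.card_fin, Fintype.card_fin]
    omega
  obtain ⟨w, hwD, hwU, hw⟩ := hc D U hD hUc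
  have : w ∈ Finset.univ.image f := by
    by_contra h
    exact hwU (by simpa [hU] using h)
  obtain ⟨v, -, rfl⟩ := Finset.mem_image.mp this
  have hv : v ∉ C := fun h => hwD (hCD (Finset.mem_image_of_mem _ h))
  obtain ⟨u, hu, huv⟩ := hdom v hv
  exact hw (f u) (hCD (Finset.mem_image_of_mem _ hu)) (hH _ _ (f.toHom.map_adj huv))

/-- The combinatorial part of the lower bound. -/
lemma burr_comb {n N a : ℕ} (hN : N + 1 = n + a) (ha1 : 1 ≤ a) (ha : 2 * a ≤ N + 1)
    (hsmall : 2 * (N : ℝ) ^ (2 * a) * (1 - (1 / 2 : ℝ) ^ a) ^ (N + 1 - 2 * a) < 1)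
    (G : SimpleGraph (Fin n)) (hG : ∀ v, ∃ w, G.Adj v w) :
    ∃ H : SimpleGraph (Fin N), ¬ G ⊑ H ∧ ¬ G ⊑ Hᶜ := by
  classical
  have haN : a ≤ N := by omega
  obtain ⟨A, -, hA⟩ := Finset.exists_superset_card_eq (s := (∅ : Finset (Fin N))) (n := a)
    (by simp) (by simpa using haN)
  let H1 : SimpleGraph (Fin N) := SimpleGraph.fromRel (fun x y => x ∈ A ∨ y ∈ A)
  have hH1 : ∀ x y, H1.Adj x y ↔ x ≠ y ∧ (x ∈ A ∨ y ∈ A) := by
    intro x y
    simp only [H1, SimpleGraph.fromRel_adj]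
    tauto
  by_cases hcon : G ⊑ H1
  · obtain ⟨f⟩ := hcon
    have hinj : Function.Injective f := f.injective
    set C : Finset (Fin n) := Finset.univ.filter (fun v => f v ∈ A) with hCdef
    have hC : C.card ≤ a := by
      rw [← hA, ← Finset.card_image_of_injective C hinj]
      apply Finset.card_le_card
      intro x hx
      obtain ⟨v, hv, rfl⟩ := Finset.mem_image.mp hx
      simpa [hCdef] using hv
    have hdom : ∀ v, v ∉ C → ∃ u ∈ C, G.Adj v u := by
      intro v hv
      obtain ⟨u, hu⟩ := hG v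
      have := (hH1 _ _).mp (f.toHom.map_adj hu)
      refine ⟨u, ?_, hu⟩
      have hv' : f v ∉ A := by simpa [hCdef] using hv
      have : f u ∈ A := by
        rcases this.2 with h | h
        · exact absurd h hv'
        · exact h
      simpa [hCdef] using this
    obtain ⟨c, hc⟩ := exists_good N a ha hsmall ha1
    refine ⟨SimpleGraph.fromRel (fun x y => c s(x, y) = true), ?_, ?_⟩
    · refine not_contained c true (hc true) hN haN G C hC hdom _ ?_
      intro x y hxy
      simp only [SimpleGraph.fromRel_adj] at hxy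
      rcases hxy.2 with h | h
      · exact h
      · rw [Sym2.eq_swap]; exact h
    · refine not_contained c false (hc false) hN haN G C hC hdom _ ?_
      intro x y hxy
      rw [SimpleGraph.compl_adj, SimpleGraph.fromRel_adj] at hxy
      have h1 := hxy.2
      have h2 : ¬ (c s(x, y) = true) := fun h => h1 ⟨hxy.1, Or.inl h⟩
      simpa using h2
  · refine ⟨H1, hcon, ?_⟩
    rintro ⟨f⟩
    have hinj : Function.Injective f := f.injective
    have hsub : Finset.univ.image f ⊆ Aᶜ := by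
      intro x hx
      obtain ⟨v, -, rfl⟩ := Finset.mem_image.mp hx
      obtain ⟨u, hu⟩ := hG v
      have h1 := f.toHom.map_adj hu
      rw [SimpleGraph.compl_adj, hH1] at h1
      rw [Finset.mem_compl]
      intro h2
      exact h1.2 ⟨h1.1, Or.inl h2⟩
    have := Finset.card_le_card hsub
    rw [Finset.card_image_of_injective _ hinj, Finset.card_compl, Finset.card_univ,
      Fintype.card_fin, Fintype.card_fin, hA] at this
    omega

/-- If `N < n` there is nothing to prove. -/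
lemma burr_trivial {n N : ℕ} (h : N < n) (G : SimpleGraph (Fin n)) :
    ∃ H : SimpleGraph (Fin N), ¬ G ⊑ H ∧ ¬ G ⊑ Hᶜ := by
  have key : ∀ H : SimpleGraph (Fin N), ¬ G ⊑ H := by
    rintro H ⟨f⟩
    have := Fintype.card_le_of_injective _ f.injective
    simp at this
    omega
  exact ⟨⊥, key _, key _⟩

lemma eventually_num (e : ℝ) (he : 0 < e) : ∃ n0 : ℕ, ∀ n : ℕ, n0 ≤ n → 2 ≤ n ∧
    1 + Real.logb 2 n ≤ n / 2 ∧
    Real.log 2 + 2 * (1 + Real.logb 2 n) * Real.log (2 * n) < (n : ℝ) ^ e / 4 := by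
  have h1 : ∀ᶠ x : ℝ in Filter.atTop, Real.log x ≤ x ^ (e / 4) := by
    have := (isLittleO_log_rpow_atTop (r := e / 4) (by positivity)).bound (c := 1) one_pos
    filter_upwards [this, Filter.eventually_ge_atTop 1] with x hx hx1
    have h2 : Real.log x ≤ ‖Real.log x‖ := le_abs_self _
    have h3 : ‖x ^ (e / 4)‖ = x ^ (e / 4) := by
      rw [Real.norm_eq_abs, abs_of_nonneg (Real.rpow_nonneg (by linarith) _)]
    rw [h3, one_mul] at hx
    exact h2.trans hx
  have h1' : ∀ᶠ x : ℝ in Filter.atTop, Real.log x ≤ x / 16 := by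
    have := (Real.isLittleO_log_id_atTop).bound (c := 1 / 16) (by norm_num)
    filter_upwards [this, Filter.eventually_ge_atTop 1] with x hx hx1
    have h2 : Real.log x ≤ ‖Real.log x‖ := le_abs_self _
    have h3 : ‖id x‖ = x := by simp [abs_of_nonneg (by linarith : (0:ℝ) ≤ x)]
    rw [h3] at hx
    linarith
  have h2 : ∀ᶠ x : ℝ in Filter.atTop, 53 ≤ x ^ (e / 2) :=
    (tendsto_rpow_atTop (by positivity : 0 < e / 2)).eventually_ge_atTop 53
  have h3 : ∀ᶠ x : ℝ in Filter.atTop, 1 ≤ x ^ (e / 4) :=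
    (tendsto_rpow_atTop (by positivity : 0 < e / 4)).eventually_ge_atTop 1
  have hall := (((h1.and h1').and (h2.and h3)).and (Filter.eventually_ge_atTop (16 : ℝ)))
  obtain ⟨x0, hx0⟩ := Filter.eventually_atTop.mp hall
  refine ⟨⌈x0⌉₊, fun n hn => ?_⟩
  obtain ⟨⟨⟨a1, a1'⟩, a2, a3⟩, a4⟩ := hx0 n (Nat.ceil_le.mp hn)
  have hn0 : (0:ℝ) < n := by linarith
  have hlog2 : (0.6931471803 : ℝ) < Real.log 2 := Real.log_two_gt_d9
  have hlog2' : Real.log 2 < (0.6931471808 : ℝ) := Real.log_two_lt_d9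
  have hlogn : 0 ≤ Real.log n := Real.log_nonneg (by linarith)
  have hb : Real.logb 2 n ≤ 2 * Real.log n := by
    rw [Real.logb, div_le_iff₀ (by linarith)]
    nlinarith
  have hb0 : 0 ≤ Real.logb 2 n := Real.logb_nonneg (by norm_num) (by linarith)
  refine ⟨?_, ?_, ?_⟩
  · have : (2:ℝ) ≤ n := by linarith
    exact_mod_cast this
  · linarith
  · set y : ℝ := (n : ℝ) ^ (e / 4) with hy
    have hy2 : (n : ℝ) ^ (e / 2) = y ^ 2 := by
      rw [hy, ← Real.rpow_natCast, ← Real.rpow_mul hn0.le]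
      congr 1
      push_cast
      ring
    have hy4 : (n : ℝ) ^ e = y ^ 4 := by
      rw [hy, ← Real.rpow_natCast, ← Real.rpow_mul hn0.le]
      congr 1
      push_cast
      ring
    rw [hy2] at a2
    rw [hy4]
    have hl2n : Real.log (2 * n) ≤ 2 * y := by
      rw [Real.log_mul (by norm_num) (by linarith)]
      linarith
    have hl2n0 : 0 ≤ Real.log (2 * n) := Real.log_nonneg (by linarith)
    have h5 : 1 + Real.logb 2 n ≤ 3 * y := by linarith
    have h6 : 2 * (1 + Real.logb 2 n) * Real.log (2 * n) ≤ 12 * y ^ 2 := by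
      have : (1 + Real.logb 2 n) * Real.log (2 * n) ≤ (3 * y) * (2 * y) :=
        mul_le_mul h5 hl2n hl2n0 (by linarith)
      nlinarith
    nlinarith

/-- The Burr and Erdos lower bound `r(G) >= n + (1 - e) log_2 n` for graphs `G` on `n >= n0(e)`
vertices without isolated vertices. -/
theorem burr_lower (e : ℝ) (he : 0 < e) : ∃ n0 : ℕ, ∀ n, n0 ≤ n → ∀ N : ℕ,
    (N:ℝ) < n + (1 - e) * Real.logb 2 n → ∀ G : SimpleGraph (Fin n), (∀ v, ∃ w, G.Adj v w) →
      ∃ H : SimpleGraph (Fin N), ¬ G ⊑ H ∧ ¬ G ⊑ Hᶜ := by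
  obtain ⟨n0, hn0⟩ := eventually_num e he
  refine ⟨n0, fun n hn N hN G hG => ?_⟩
  obtain ⟨h2, hhalf, hmain⟩ := hn0 n hn
  rcases lt_or_ge N n with hlt | hge
  · exact burr_trivial hlt G
  obtain ⟨a, ha⟩ : ∃ a : ℕ, N + 1 = n + a := ⟨N + 1 - n, by omega⟩
  have ha1 : 1 ≤ a := by omega
  have hnR : (2:ℝ) ≤ n := by exact_mod_cast h2
  have hn0' : (0:ℝ) < n := by linarith
  have hb0 : 0 ≤ Real.logb 2 n := Real.logb_nonneg (by norm_num) (by linarith)
  have haR : (a:ℝ) < 1 + (1 - e) * Real.logb 2 n := by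
    have : (N:ℝ) + 1 = n + a := by exact_mod_cast ha
    linarith
  have haR' : (a:ℝ) ≤ 1 + Real.logb 2 n := by nlinarith
  have han : (a:ℝ) ≤ n / 2 := haR'.trans hhalf
  have han' : 2 * a ≤ n := by
    have : (2:ℝ) * a ≤ n := by linarith
    exact_mod_cast this
  have h2a : 2 * a ≤ N + 1 := by omega
  refine burr_comb ha ha1 h2a ?_ G hG
  have hN2 : (N:ℝ) ≤ 2 * n := by
    have : (N:ℝ) + 1 = n + a := by exact_mod_cast ha
    linarith
  have hNpos : (0:ℝ) < N := by
    have : (n:ℝ) ≤ N := by exact_mod_cast hge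
    linarith
  set x : ℝ := (1 / 2 : ℝ) ^ a with hx
  have hx1 : x ≤ 1 := pow_le_one₀ (by norm_num) (by norm_num)
  have hxlow : (n:ℝ) ^ (e - 1) / 2 ≤ x := by
    have e1 : x = (2:ℝ) ^ (-(a:ℝ)) := by
      rw [hx, Real.rpow_neg (by norm_num), Real.rpow_natCast, one_div, inv_pow]
    have e2 : (n:ℝ) ^ (e - 1) / 2 = (2:ℝ) ^ (-(1 + (1 - e) * Real.logb 2 n)) := by
      have e3 : (2:ℝ) ^ (Real.logb 2 n * (e - 1)) = (n:ℝ) ^ (e - 1) := by
        rw [Real.rpow_mul (by norm_num), Real.rpow_logb (by norm_num) (by norm_num) hn0']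
      rw [show -(1 + (1 - e) * Real.logb 2 n) = Real.logb 2 n * (e - 1) - 1 by ring,
        Real.rpow_sub (by norm_num : (0:ℝ) < 2), e3, Real.rpow_one]
    rw [e1, e2]
    exact Real.rpow_le_rpow_of_exponent_le (by norm_num) (by linarith)
  have hm : (n:ℝ) / 2 ≤ ((N + 1 - 2 * a : ℕ) : ℝ) := by
    rw [Nat.cast_sub h2a]
    push_cast
    have : (N:ℝ) + 1 = n + a := by exact_mod_cast ha
    linarith
  have hxm : (n:ℝ) ^ e / 4 ≤ x * ((N + 1 - 2 * a : ℕ) : ℝ) := by
    have h7 : (n:ℝ) ^ e = (n:ℝ) ^ (e - 1) * n := by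
      rw [Real.rpow_sub_one (by linarith)]
      field_simp
    have h8 : (n:ℝ) ^ e / 4 = ((n:ℝ) ^ (e - 1) / 2) * (n / 2) := by rw [h7]; ring
    rw [h8]
    exact mul_le_mul hxlow hm (by linarith) (by positivity)
  have hpow : (1 - x) ^ (N + 1 - 2 * a) ≤ Real.exp (-((n:ℝ) ^ e / 4)) := by
    have h9 : 1 - x ≤ Real.exp (-x) := by
      have := Real.add_one_le_exp (-x)
      linarith
    calc (1 - x) ^ (N + 1 - 2 * a) ≤ (Real.exp (-x)) ^ (N + 1 - 2 * a) :=
          pow_le_pow_left₀ (by linarith) h9 _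
      _ = Real.exp (-(x * ((N + 1 - 2 * a : ℕ) : ℝ))) := by
          rw [← Real.exp_nat_mul]; congr 1; ring
      _ ≤ _ := Real.exp_le_exp.mpr (by linarith)
  have hNpow : (N:ℝ) ^ (2 * a) ≤ Real.exp (2 * (1 + Real.logb 2 n) * Real.log (2 * n)) := by
    have h10 : (N:ℝ) ^ (2 * a) = Real.exp ((2 * a : ℕ) * Real.log N) := by
      rw [Real.exp_nat_mul, Real.exp_log hNpos]
    rw [h10]
    apply Real.exp_le_exp.mpr
    have h11 : Real.log N ≤ Real.log (2 * n) := Real.log_le_log hNpos hN2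
    have h12 : 0 ≤ Real.log (2 * n) := Real.log_nonneg (by linarith)
    push_cast
    have h13 : 2 * (a:ℝ) * Real.log N ≤ 2 * (a:ℝ) * Real.log (2 * n) :=
      mul_le_mul_of_nonneg_left h11 (by positivity)
    have h14 : 2 * (a:ℝ) * Real.log (2 * n) ≤ 2 * (1 + Real.logb 2 n) * Real.log (2 * n) :=
      mul_le_mul_of_nonneg_right (by linarith) h12
    exact h13.trans h14
  have h1x : 0 ≤ (1 - x) ^ (N + 1 - 2 * a) := pow_nonneg (by linarith) _
  calc 2 * (N:ℝ) ^ (2 * a) * (1 - x) ^ (N + 1 - 2 * a)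
      ≤ Real.exp (Real.log 2) * Real.exp (2 * (1 + Real.logb 2 n) * Real.log (2 * n)) *
        Real.exp (-((n:ℝ) ^ e / 4)) := by
        rw [Real.exp_log (by norm_num : (0:ℝ) < 2)]
        gcongr
    _ = Real.exp (Real.log 2 + 2 * (1 + Real.logb 2 n) * Real.log (2 * n) -
          (n:ℝ) ^ e / 4) := by
        rw [← Real.exp_add, ← Real.exp_add]
        congr 1
    _ < 1 := by
        rw [Real.exp_lt_one_iff]
        linarith

end Pool.Agent.H866R3.Burr
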