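import Mathlib
set_option autoImplicit false
open Finset
open scoped Classical

namespace Pool.Agent.H866R3

variable {V : Type*} [Fintype V]

/-- Probability vectors on `W` all of whose weights are at most `1/K`. -/
def Spread (W : Finset V) (K : ℕ) : Set (V → ℝ) :=
  {μ | (∀ z, 0 ≤ μ z) ∧ (∀ z, μ z ≤ 1 / K) ∧ (∀ z, z ∉ W → μ z = 0) ∧ ∑ z, μ z = 1}

theorem unif_mem (W S : Finset V) (K : ℕ) (hK : 1 ≤ K) (hS : S ⊆ W) (hc : S.card = K) :
    (fun z => if z ∈ S then (1 / K : ℝ) else 0) ∈ Spread W K := by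
  have hK' : (0 : ℝ) < K := by exact_mod_cast hK
  refine ⟨fun z => ?_, fun z => ?_, fun z hz => ?_, ?_⟩
  · dsimp only
    split_ifs
    · positivity
    · exact le_rfl
  · dsimp only
    split_ifs
    · exact le_rfl
    · positivity
  · exact if_neg (fun h => hz (hS h))
  · rw [sum_ite_mem, univ_inter, sum_const, hc, nsmul_eq_mul]
    field_simp

theorem Spread.convex (W : Finset V) (K : ℕ) : Convex ℝ (Spread W K) := by
  intro μ hμ ν hν a b ha hb hab
  refine ⟨fun z => ?_, fun z => ?_, fun z hz => ?_, ?_⟩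
  · have h1 := hμ.1 z
    have h2 := hν.1 z
    simp only [Pi.add_apply, Pi.smul_apply, smul_eq_mul]
    positivity
  · have h1 := hμ.2.1 z
    have h2 := hν.2.1 z
    simp only [Pi.add_apply, Pi.smul_apply, smul_eq_mul]
    calc a * μ z + b * ν z ≤ a * (1 / K) + b * (1 / K) := by gcongr
      _ = 1 / K := by rw [← add_mul, hab, one_mul]
  · simp [hμ.2.2.1 z hz, hν.2.2.1 z hz]
  · simp only [Pi.add_apply, Pi.smul_apply, smul_eq_mul]
    rw [sum_add_distrib, ← mul_sum, ← mul_sum, hμ.2.2.2, hν.2.2.2]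
    linarith

theorem Spread.compact (W : Finset V) (K : ℕ) : IsCompact (Spread W K) := by
  have h1 : IsCompact (Set.pi Set.univ (fun _ : V => Set.Icc (0 : ℝ) (1 / K))) :=
    isCompact_univ_pi fun _ => isCompact_Icc
  refine h1.of_isClosed_subset ?_ ?_
  · have : Spread W K = (⋂ z, {μ : V → ℝ | 0 ≤ μ z}) ∩ ((⋂ z, {μ : V → ℝ | μ z ≤ 1 / K}) ∩
        ((⋂ z, ⋂ (_ : z ∉ W), {μ : V → ℝ | μ z = 0}) ∩ {μ : V → ℝ | ∑ z, μ z = 1})) := by
      ext μ
      simp only [Spread, Set.mem_ofPred_eq, Set.mem_inter_iff, Set.mem_iInter]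
    rw [this]
    refine IsClosed.inter (isClosed_iInter fun z => ?_) (IsClosed.inter
      (isClosed_iInter fun z => ?_) (IsClosed.inter (isClosed_iInter fun z =>
        isClosed_iInter fun _ => ?_) ?_))
    · exact isClosed_le continuous_const (continuous_apply z)
    · exact isClosed_le (continuous_apply z) continuous_const
    · exact isClosed_eq (continuous_apply z) continuous_const
    · exact isClosed_eq (continuous_finsetSum _ fun i _ => continuous_apply i) continuous_const
  · intro μ hμ z _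
    exact ⟨hμ.1 z, hμ.2.1 z⟩

/-- Minimax theorem for distributions with bounded weights. -/
theorem dichotomy (P : V → V → ℝ) (W1 W2 : Finset V) (K1 K2 : ℕ) (h1 : 1 ≤ K1) (h2 : 1 ≤ K2)
    (hW1 : K1 ≤ W1.card) (hW2 : K2 ≤ W2.card) (τ : ℝ) :
    (∃ μ ∈ Spread W1 K1, (W2.filter (fun x => ∑ y, μ y * P x y < τ)).card < K2) ∨
    (∃ ν ∈ Spread W2 K2, (W1.filter (fun y => τ ≤ ∑ x, ν x * P x y)).card < K1) := by
  set f : (V → ℝ) → (V → ℝ) → ℝ := fun ν μ => ∑ x, ∑ y, ν x * (μ y * P x y) with hf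
  have hf1 : ∀ ν μ, f ν μ = ∑ x, ν x * ∑ y, μ y * P x y := by
    intro ν μ
    simp only [hf, mul_sum]
  have hf2 : ∀ ν μ, f ν μ = ∑ y, μ y * ∑ x, ν x * P x y := by
    intro ν μ
    simp only [hf]
    rw [sum_comm]
    apply sum_congr rfl
    intro y _
    rw [mul_sum]
    apply sum_congr rfl
    intro x _
    ring
  have hne1 : (Spread W1 K1).Nonempty := by
    obtain ⟨S, hS, hc⟩ := exists_subset_card_eq hW1
    exact ⟨_, unif_mem W1 S K1 h1 hS hc⟩
  have hne2 : (Spread W2 K2).Nonempty := by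
    obtain ⟨S, hS, hc⟩ := exists_subset_card_eq hW2
    exact ⟨_, unif_mem W2 S K2 h2 hS hc⟩
  have hcont1 : ∀ μ, Continuous (fun ν => f ν μ) := by
    intro μ
    simp only [hf]
    fun_prop
  have hcont2 : ∀ ν, Continuous (f ν) := by
    intro ν
    simp only [hf]
    fun_prop
  have hlin1 : ∀ μ, ∀ (ν ν' : V → ℝ) (a b : ℝ), f (a • ν + b • ν') μ = a * f ν μ + b * f ν' μ := by
    intro μ ν ν' a b
    simp only [hf1, Pi.add_apply, Pi.smul_apply, smul_eq_mul, mul_sum, ← sum_add_distrib]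
    apply sum_congr rfl
    intro x _
    apply sum_congr rfl
    intro y _
    ring
  have hlin2 : ∀ ν, ∀ (μ μ' : V → ℝ) (a b : ℝ), f ν (a • μ + b • μ') = a * f ν μ + b * f ν μ' := by
    intro ν μ μ' a b
    simp only [hf2, Pi.add_apply, Pi.smul_apply, smul_eq_mul, mul_sum, ← sum_add_distrib]
    apply sum_congr rfl
    intro x _
    apply sum_congr rfl
    intro y _
    ring
  obtain ⟨ν, hν, μ, hμ, hsad⟩ := Sion.exists_isSaddlePointOn' (X := Spread W2 K2)
    (Y := Spread W1 K1) (f := f) hne2 (Spread.compact W2 K2)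
    (fun μ _ => (hcont1 μ).lowerSemicontinuous.lowerSemicontinuousOn _)
    (fun μ _ => by
      apply ConvexOn.quasiconvexOn
      refine ⟨Spread.convex W2 K2, fun x _ y _ a b _ _ _ => ?_⟩
      exact (hlin1 μ x y a b).le)
    (Spread.convex W1 K1) (Spread.compact W1 K1)
    (fun ν _ => (hcont2 ν).upperSemicontinuous.upperSemicontinuousOn _)
    (fun ν _ => by
      apply ConcaveOn.quasiconcaveOn
      refine ⟨Spread.convex W1 K1, fun x _ y _ a b _ _ _ => ?_⟩
      exact (hlin2 ν x y a b).ge)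
    (Spread.convex W2 K2) hne1
  by_cases hv : τ ≤ f ν μ
  · left
    refine ⟨μ, hμ, ?_⟩
    by_contra hcon
    push Not at hcon
    obtain ⟨S, hS, hc⟩ := exists_subset_card_eq hcon
    have hSW : S ⊆ W2 := hS.trans (filter_subset _ _)
    have h3 := hsad _ (unif_mem W2 S K2 h2 hSW hc) μ hμ
    have h3' : f (fun z => if z ∈ S then (1 / K2 : ℝ) else 0) μ =
        ∑ x, (if x ∈ S then (1 / K2 : ℝ) else 0) * ∑ y, μ y * P x y := hf1 _ _
    rw [h3'] at h3
    have h4 : ∑ x, (if x ∈ S then (1 / K2 : ℝ) else 0) * ∑ y, μ y * P x y < τ := by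
      have hK : (0 : ℝ) < K2 := by exact_mod_cast h2
      have hSne : S.Nonempty := by
        rw [← card_pos, hc]; omega
      calc ∑ x, (if x ∈ S then (1 / K2 : ℝ) else 0) * ∑ y, μ y * P x y
          = ∑ x ∈ S, (1 / K2 : ℝ) * ∑ y, μ y * P x y := by
            simp only [ite_mul, zero_mul, sum_ite_mem, univ_inter]
        _ < ∑ x ∈ S, (1 / K2 : ℝ) * τ := by
            apply sum_lt_sum_of_nonempty hSne
            intro x hx
            apply mul_lt_mul_of_pos_left (mem_filter.1 (hS hx)).2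
            positivity
        _ = τ := by
            rw [sum_const, hc, nsmul_eq_mul]
            field_simp
    linarith
  · right
    push Not at hv
    refine ⟨ν, hν, ?_⟩
    by_contra hcon
    push Not at hcon
    obtain ⟨S, hS, hc⟩ := exists_subset_card_eq hcon
    have hSW : S ⊆ W1 := hS.trans (filter_subset _ _)
    have h3 := hsad ν hν _ (unif_mem W1 S K1 h1 hSW hc)
    have h3' : f ν (fun z => if z ∈ S then (1 / K1 : ℝ) else 0) =
        ∑ y, (if y ∈ S then (1 / K1 : ℝ) else 0) * ∑ x, ν x * P x y := hf2 _ _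
    rw [h3'] at h3
    have h4 : τ ≤ ∑ y, (if y ∈ S then (1 / K1 : ℝ) else 0) * ∑ x, ν x * P x y := by
      have hK : (0 : ℝ) < K1 := by exact_mod_cast h1
      calc τ = ∑ x ∈ S, (1 / K1 : ℝ) * τ := by
            rw [sum_const, hc, nsmul_eq_mul]
            field_simp
        _ ≤ ∑ y ∈ S, (1 / K1 : ℝ) * ∑ x, ν x * P x y := by
            apply sum_le_sum
            intro x hx
            apply mul_le_mul_of_nonneg_left (mem_filter.1 (hS hx)).2
            positivity
        _ = ∑ y, (if y ∈ S then (1 / K1 : ℝ) else 0) * ∑ x, ν x * P x y := by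
            simp only [ite_mul, zero_mul, sum_ite_mem, univ_inter]
    linarith

end Pool.Agent.H866R3
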