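import Mathlib
set_option autoImplicit false
open Finset
open scoped Classical

namespace Pool.Agent.H866R3

variable {V : Type*} [Fintype V]

theorem sample_step (H : SimpleGraph V) (μ : V → ℝ) (hμ : ∀ z, 0 ≤ μ z) (hsum : ∑ z, μ z = 1)
    (T : Finset V) (α δ E : ℝ) (hδ1 : δ < 1) (hδα : δ ≤ α)
    (hE0 : 0 < E) (hE1 : E ≤ 1)
    (hα : ∀ x ∈ T, α ≤ ∑ z ∈ univ.filter (fun z => H.Adj z x), μ z)
    (Z : Finset V) (hZ : ∑ z ∈ Z, μ z ≤ δ) :
    ∃ y, y ∉ Z ∧ ∑ x ∈ T, E ^ ((insert y Z).filter (fun z => H.Adj z x)).card ≤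
      (1 - (1 - E) * (α - δ)) * ∑ x ∈ T, E ^ (Z.filter (fun z => H.Adj z x)).card := by
  set Φ : ℝ := ∑ x ∈ T, E ^ (Z.filter (fun z => H.Adj z x)).card with hΦ
  have hΦ0 : 0 ≤ Φ := sum_nonneg fun x _ => pow_nonneg hE0.le _
  by_contra hcon
  push Not at hcon
  have hU : ∑ z ∈ univ \ Z, μ z + ∑ z ∈ Z, μ z = 1 := by
    rw [sum_sdiff (subset_univ Z), hsum]
  set mU := ∑ z ∈ univ \ Z, μ z with hmU
  have hmU0 : 0 < mU := by linarith
  have hmZ0 : 0 ≤ ∑ z ∈ Z, μ z := sum_nonneg fun z _ => hμ z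
  have hstep : ∀ y ∈ univ \ Z, ∑ x ∈ T, E ^ ((insert y Z).filter (fun z => H.Adj z x)).card =
      ∑ x ∈ T, E ^ (Z.filter (fun z => H.Adj z x)).card * (if H.Adj y x then E else 1) := by
    intro y hy
    rw [mem_sdiff] at hy
    apply sum_congr rfl
    intro x _
    rw [filter_insert]
    split_ifs with h
    · rw [card_insert_of_notMem (fun h' => hy.2 (mem_filter.1 h').1), pow_succ]
    · rw [mul_one]
  have h1 : ∑ y ∈ univ \ Z, μ y * ∑ x ∈ T, E ^ ((insert y Z).filter (fun z => H.Adj z x)).card ≤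
      mU * ((1 - (1 - E) * (α - δ)) * Φ) := by
    calc ∑ y ∈ univ \ Z, μ y * ∑ x ∈ T, E ^ ((insert y Z).filter (fun z => H.Adj z x)).card
        = ∑ y ∈ univ \ Z, ∑ x ∈ T, E ^ (Z.filter (fun z => H.Adj z x)).card *
            (μ y * (if H.Adj y x then E else 1)) := by
          apply sum_congr rfl
          intro y hy
          rw [hstep y hy, mul_sum]
          apply sum_congr rfl
          intro x _
          ring
      _ = ∑ x ∈ T, E ^ (Z.filter (fun z => H.Adj z x)).card *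
            ∑ y ∈ univ \ Z, (μ y * (if H.Adj y x then E else 1)) := by
          rw [sum_comm]
          apply sum_congr rfl
          intro x _
          rw [mul_sum]
      _ ≤ ∑ x ∈ T, E ^ (Z.filter (fun z => H.Adj z x)).card *
            (mU * (1 - (1 - E) * (α - δ))) := by
          apply sum_le_sum
          intro x hx
          apply mul_le_mul_of_nonneg_left _ (pow_nonneg hE0.le _)
          have e1 : ∑ y ∈ univ \ Z, (μ y * (if H.Adj y x then E else 1)) =
              mU - (1 - E) * ∑ y ∈ (univ \ Z).filter (fun z => H.Adj z x), μ y := by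
            rw [sum_filter, mul_sum, hmU, ← sum_sub_distrib]
            apply sum_congr rfl
            intro y _
            split_ifs <;> ring
          have e2 : ∑ z ∈ univ.filter (fun z => H.Adj z x), μ z ≤
              ∑ y ∈ (univ \ Z).filter (fun z => H.Adj z x), μ y + ∑ z ∈ Z, μ z := by
            have : univ.filter (fun z => H.Adj z x) ⊆
                (univ \ Z).filter (fun z => H.Adj z x) ∪ Z := by
              intro z hz
              simp only [mem_filter, mem_univ, true_and, mem_union, mem_sdiff] at hz ⊢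
              tauto
            refine (sum_le_sum_of_subset_of_nonneg this (fun i _ _ => hμ i)).trans ?_
            have := sum_union_inter (s₁ := (univ \ Z).filter (fun z => H.Adj z x)) (s₂ := Z)
              (f := μ)
            have h0 : 0 ≤ ∑ i ∈ (univ \ Z).filter (fun z => H.Adj z x) ∩ Z, μ i :=
              sum_nonneg fun i _ => hμ i
            linarith
          have e3 := hα x hx
          rw [e1]
          have e4 : mU * (α - δ) ≤ ∑ y ∈ (univ \ Z).filter (fun z => H.Adj z x), μ y := by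
            have : mU ≤ 1 := by linarith
            have h5 : mU * (α - δ) ≤ 1 * (α - δ) :=
              mul_le_mul_of_nonneg_right this (by linarith)
            linarith
          have e5 : (1 - E) * (mU * (α - δ)) ≤
              (1 - E) * ∑ y ∈ (univ \ Z).filter (fun z => H.Adj z x), μ y :=
            mul_le_mul_of_nonneg_left e4 (by linarith)
          linarith
      _ = mU * ((1 - (1 - E) * (α - δ)) * Φ) := by
          rw [← sum_mul, ← hΦ]
          ring
  obtain ⟨z0, hz0, hz0'⟩ : ∃ z ∈ univ \ Z, 0 < μ z := by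
    by_contra h
    push Not at h
    have : mU ≤ 0 := sum_nonpos h
    linarith
  have h2 : ∑ y ∈ univ \ Z, μ y * ((1 - (1 - E) * (α - δ)) * Φ) <
      ∑ y ∈ univ \ Z, μ y * ∑ x ∈ T, E ^ ((insert y Z).filter (fun z => H.Adj z x)).card := by
    apply sum_lt_sum
    · intro y hy
      exact mul_le_mul_of_nonneg_left (hcon y (mem_sdiff.1 hy).2).le (hμ y)
    · exact ⟨z0, hz0, mul_lt_mul_of_pos_left (hcon z0 (mem_sdiff.1 hz0).2) hz0'⟩
  rw [← sum_mul] at h2
  linarith

/-- A distribution with small weights can be replaced by the uniform distribution on a small set. -/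
theorem sample (H : SimpleGraph V) (μ : V → ℝ) (hμ : ∀ z, 0 ≤ μ z) (hsum : ∑ z, μ z = 1)
    (κ : ℝ) (hκ : ∀ z, μ z ≤ κ) (hκ0 : 0 ≤ κ) (T : Finset V) (α δ : ℝ) (m : ℕ)
    (hδ : 0 < δ) (hδ1 : δ < 1) (hδα : δ ≤ α) (hα1 : α ≤ 1)
    (hα : ∀ x ∈ T, α ≤ ∑ z ∈ univ.filter (fun z => H.Adj z x), μ z)
    (hm : m * κ ≤ δ) (hsmall : (T.card : ℝ) * Real.exp (-(2 * δ ^ 2 * m)) < 1) :
    ∃ Z : Finset V, Z.card = m ∧
      ∀ x ∈ T, (α - 4 * δ) * m ≤ ((Z.filter (fun z => H.Adj z x)).card : ℝ) := by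
  set E := Real.exp (-δ) with hE
  have hE0 : 0 < E := Real.exp_pos _
  have hE1 : E ≤ 1 := Real.exp_le_one_iff.2 (by linarith)
  set c := 1 - (1 - E) * (α - δ) with hc
  have hc0 : 0 ≤ c := by
    have h1 : (1 - E) * (α - δ) ≤ 1 * 1 := by
      apply mul_le_mul <;> linarith
    linarith
  have key : ∀ j : ℕ, j ≤ m → ∃ Z : Finset V, Z.card = j ∧
      ∑ x ∈ T, E ^ (Z.filter (fun z => H.Adj z x)).card ≤ c ^ j * T.card := by
    intro j
    induction j with
    | zero => intro _; exact ⟨∅, rfl, by simp⟩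
    | succ j ih =>
      intro hj
      obtain ⟨Z, hZc, hZ⟩ := ih (by omega)
      have hZδ : ∑ z ∈ Z, μ z ≤ δ := by
        calc ∑ z ∈ Z, μ z ≤ ∑ z ∈ Z, κ := sum_le_sum fun z _ => hκ z
          _ = j * κ := by rw [sum_const, hZc, nsmul_eq_mul]
          _ ≤ m * κ := by
            have : (j : ℝ) ≤ m := by exact_mod_cast (by omega : j ≤ m)
            gcongr
          _ ≤ δ := hm
      obtain ⟨y, hy, hy2⟩ := sample_step H μ hμ hsum T α δ E hδ1 hδα hE0 hE1 hα Z hZδ
      refine ⟨insert y Z, by rw [card_insert_of_notMem hy, hZc], hy2.trans ?_⟩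
      rw [← hc, pow_succ]
      calc c * ∑ x ∈ T, E ^ (Z.filter (fun z => H.Adj z x)).card ≤ c * (c ^ j * T.card) := by
            gcongr
        _ = _ := by ring
  obtain ⟨Z, hZc, hZ⟩ := key m le_rfl
  refine ⟨Z, hZc, fun x hx => ?_⟩
  by_contra hcon
  push Not at hcon
  have h1 : E ^ (Z.filter (fun z => H.Adj z x)).card ≤ c ^ m * T.card :=
    (single_le_sum (f := fun x => E ^ (Z.filter (fun z => H.Adj z x)).card)
      (fun i _ => pow_nonneg hE0.le _) hx).trans hZ
  have h2 : Real.exp (-δ * ((α - 4 * δ) * m)) < E ^ (Z.filter (fun z => H.Adj z x)).card := by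
    rw [hE, ← Real.exp_nat_mul]
    apply Real.exp_lt_exp.2
    have : -δ * ((α - 4 * δ) * m) < -δ * ((Z.filter (fun z => H.Adj z x)).card : ℝ) :=
      mul_lt_mul_of_neg_left hcon (by linarith)
    linarith
  have h3 : c ^ m ≤ Real.exp (-(m * ((1 - E) * (α - δ)))) := by
    have h4 : c ≤ Real.exp (-((1 - E) * (α - δ))) := by
      have := Real.add_one_le_exp (-((1 - E) * (α - δ)))
      linarith
    calc c ^ m ≤ Real.exp (-((1 - E) * (α - δ))) ^ m := pow_le_pow_left₀ hc0 h4 m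
      _ = _ := by rw [← Real.exp_nat_mul]; congr 1; ring
  have hE2 : δ - δ ^ 2 ≤ 1 - E := by
    have h5 := Real.abs_exp_sub_one_sub_id_le (x := -δ) (by rw [abs_neg, abs_of_pos hδ]; exact hδ1.le)
    rw [abs_le] at h5
    have := h5.2
    rw [← hE] at this
    nlinarith
  have h6 : 2 * δ ^ 2 ≤ (1 - E) * (α - δ) - δ * (α - 4 * δ) := by
    have h7 : (δ - δ ^ 2) * (α - δ) ≤ (1 - E) * (α - δ) :=
      mul_le_mul_of_nonneg_right hE2 (by linarith)
    nlinarith [sq_nonneg δ, mul_nonneg (sq_nonneg δ) hδ.le,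
      mul_nonneg (sq_nonneg δ) (by linarith : (0:ℝ) ≤ 1 - α)]
  have h8 : (T.card : ℝ) * Real.exp (-(m * ((1 - E) * (α - δ)))) ≤
      Real.exp (-δ * ((α - 4 * δ) * m)) * ((T.card : ℝ) * Real.exp (-(2 * δ ^ 2 * m))) := by
    rw [show Real.exp (-δ * ((α - 4 * δ) * m)) * ((T.card : ℝ) * Real.exp (-(2 * δ ^ 2 * m))) =
      T.card * Real.exp (-δ * ((α - 4 * δ) * m) + -(2 * δ ^ 2 * m)) by rw [Real.exp_add]; ring]
    apply mul_le_mul_of_nonneg_left _ (Nat.cast_nonneg _)
    apply Real.exp_le_exp.2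
    have : (m : ℝ) * (2 * δ ^ 2) ≤ m * ((1 - E) * (α - δ) - δ * (α - 4 * δ)) :=
      mul_le_mul_of_nonneg_left h6 (Nat.cast_nonneg _)
    nlinarith
  have h9 : Real.exp (-δ * ((α - 4 * δ) * m)) * ((T.card : ℝ) * Real.exp (-(2 * δ ^ 2 * m))) <
      Real.exp (-δ * ((α - 4 * δ) * m)) * 1 :=
    mul_lt_mul_of_pos_left hsmall (Real.exp_pos _)
  have h10 : c ^ m * T.card ≤ (T.card : ℝ) * Real.exp (-(m * ((1 - E) * (α - δ)))) := by
    rw [mul_comm]
    exact mul_le_mul_of_nonneg_left h3 (Nat.cast_nonneg _)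
  linarith

end Pool.Agent.H866R3
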