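import Pool.Agent.H866R3.Embed
import Pool.Agent.H866R3.Sample
import Pool.Agent.H866R3.Minimax
set_option autoImplicit false
open Finset
open scoped Classical

namespace Pool.Agent.H866R3

def cC (q : ℕ) : ℕ := 16 * (q + 4)
def cM (q : ℕ) : ℕ := 3200 * q ^ 2 * (q + 1)
def cK (q : ℕ) : ℕ := 80 * q * cM q
def k2 (q : ℕ) : ℕ := (2 * cK q + 1) * cC q

/-- The list of star sizes. -/
def starList (q v n : ℕ) : List ℕ :=
  mainList q (cC q * v) (n - k2 q * (v + 1)) ++ List.replicate (k2 q) v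

/-- Largeness conditions. -/
structure Large (q v n : ℕ) : Prop where
  hq : 1 ≤ q
  hv : 8 * (q + 4) * k2 q ≤ v
  hn : n ≤ 2 ^ (q * (cC q * v))
  ht : (q + 7) * (cC q * v) ≤ 2 ^ (q * (cC q * v))
  hK : cK q * (cC q * v) ≤ n
  hn2 : k2 q * (v + 1) + 2 ≤ n
  hexp : (2 * (cK q * (cC q * v)) : ℝ) * Real.exp (-(2 * (1 / (16 * (q + 4)) : ℝ) ^ 2 * v)) < 1

theorem ratio_pow (q : ℕ) (hq : 1 ≤ q) : (4 * q + 1) ^ (q + 1) * 2 ^ q ≤ (8 * q) ^ (q + 1) := by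
  have hq' : (0 : ℝ) < q := by exact_mod_cast hq
  have hq1 : (1 : ℝ) ≤ q := by exact_mod_cast hq
  have h1 : (1 + 1 / (4 * q : ℝ)) ^ (q + 1) ≤ 2 := by
    have h2 : (1 + 1 / (4 * q : ℝ)) ≤ Real.exp (1 / (4 * q)) := by
      have := Real.add_one_le_exp (1 / (4 * q : ℝ))
      linarith
    have h3 : (1 + 1 / (4 * q : ℝ)) ^ (q + 1) ≤ Real.exp (1 / (4 * q)) ^ (q + 1) := by
      apply pow_le_pow_left₀ _ h2
      positivity
    rw [← Real.exp_nat_mul] at h3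
    have h4 : ((q + 1 : ℕ) : ℝ) * (1 / (4 * q)) ≤ 1 / 2 := by
      push_cast
      rw [mul_one_div, div_le_div_iff₀ (by positivity) (by norm_num)]
      linarith
    have h5 : Real.exp (1 / 2) ≤ 2 := by
      have h6 : Real.exp (1 / 2) ^ 2 = Real.exp 1 := by
        rw [← Real.exp_nat_mul]; norm_num
      have h7 := Real.exp_one_lt_d9
      nlinarith [Real.exp_pos (1 / 2 : ℝ)]
    exact h3.trans ((Real.exp_le_exp.2 h4).trans h5)
  have h8 : ((4 * q + 1 : ℝ)) ^ (q + 1) * 2 ^ q ≤ (8 * q) ^ (q + 1) := by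
    have e : (4 * q + 1 : ℝ) = (4 * q) * (1 + 1 / (4 * q)) := by
      field_simp
    rw [e, mul_pow]
    calc (4 * q : ℝ) ^ (q + 1) * (1 + 1 / (4 * q)) ^ (q + 1) * 2 ^ q
        ≤ (4 * q : ℝ) ^ (q + 1) * 2 * 2 ^ q := by gcongr
      _ = (4 * q : ℝ) ^ (q + 1) * 2 ^ (q + 1) := by ring
      _ = (8 * q) ^ (q + 1) := by rw [← mul_pow]; ring
  exact_mod_cast h8

theorem mainList_length' (q w r : ℕ) (hq : 1 ≤ q) (hw : 8 ≤ w) (hr : r ≤ 2 ^ (q * w)) :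
    (mainList q w r).length ≤ (q + 1) * w + 1 := by
  apply mainList_length q w hq hw
  have h1 := Nat.pow_le_pow_left (ratio_pow q hq) w
  rw [mul_pow, ← pow_mul, ← pow_mul, ← pow_mul] at h1
  calc (4 * q + 1) ^ ((q + 1) * w) * r ≤ (4 * q + 1) ^ ((q + 1) * w) * 2 ^ (q * w) :=
        Nat.mul_le_mul_left _ hr
    _ ≤ (8 * q) ^ ((q + 1) * w) := h1
    _ = (8 * q) ^ ((q + 1) * w) * 1 := (mul_one _).symm
    _ ≤ _ := Nat.mul_le_mul_left _ (by omega)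

end Pool.Agent.H866R3
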