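import Pool.Agent.H866R3.Core
set_option autoImplicit false
open Finset
open scoped Classical

namespace Pool.Agent.H866R3

variable {V : Type*} [Fintype V]

theorem k2_pos (q : ℕ) : 1 ≤ k2 q := by
  unfold k2 cC
  have : 1 ≤ (2 * cK q + 1) := by omega
  nlinarith

theorem embed' (H : SimpleGraph V) (q v n : ℕ) (L : Large q v n)
    (hN : Fintype.card V = n + (q + 7) * (cC q * v)) (μ : V → ℝ) (κ γ m0 : ℝ)
    (Z B Bad Zf : Finset V)
    (hμ : ∀ z, 0 ≤ μ z) (hκ : ∀ z, μ z ≤ κ) (hκ0 : 0 ≤ κ) (hm0 : 0 < m0) (hγ : 0 ≤ γ)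
    (hρ : (4 * q - 1 : ℝ) / (8 * q) ≤ 1 - γ / m0)
    (hnon : ∀ x, x ∉ Z → x ∉ B → x ∉ Bad → ∑ z ∈ Z.filter (fun z => ¬ H.Adj z x), μ z ≤ γ)
    (hmass : m0 + ((q + 2) * (cC q * v) : ℕ) * κ ≤ ∑ z ∈ Z, μ z)
    (hZf : Zf.card = v) (hb : Bad.card ≤ (q + 4) * (cC q * v))
    (hZB : Z.card + B.card ≤ 2 * (cK q * (cC q * v)))
    (hnon2 : ∀ x, x ∈ Z ∨ x ∈ B → x ∉ Bad →
      (1 / (4 * (q + 4)) : ℝ) * v ≤ ((Zf.filter (fun z => H.Adj z x)).card : ℝ)) :
    Emb H univ (starList q v n) := by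
  obtain ⟨hq, hv, hn, ht, hK, hn2, hexp⟩ := L
  have hk2 := k2_pos q
  have hk2v : k2 q ≤ v := by
    have : 1 ≤ 8 * (q + 4) := by omega
    nlinarith
  have hv1 : 1 ≤ v := by omega
  have hwv : 80 * v ≤ cC q * v := by
    apply Nat.mul_le_mul_right
    unfold cC
    omega
  have hk2w : k2 q * v = 2 * (cK q * (cC q * v)) + cC q * v := by
    unfold k2; ring
  have hCv : (cC q * v : ℕ) = 16 * (q + 4) * v := rfl
  have hCvR : ((cC q * v : ℕ) : ℝ) = 16 * (q + 4) * v := by rw [hCv]; push_cast; ring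
  set w := cC q * v with hw
  have hq4 : (0 : ℝ) < q + 4 := by positivity
  have hvR : (1 : ℝ) ≤ v := by exact_mod_cast hv1
  have hvk : (8 * (q + 4) * k2 q : ℝ) ≤ v := by exact_mod_cast hv
  have hk2R : (1 : ℝ) ≤ k2 q := by exact_mod_cast hk2
  have hβ : (1 / (8 * (q + 4)) : ℝ) * (8 * (q + 4)) = 1 := by field_simp
  have hβk : (k2 q : ℝ) ≤ (1 / (8 * (q + 4)) : ℝ) * v := by
    rw [one_div, inv_mul_eq_div, le_div_iff₀ (by positivity)]
    linarith
  have e1 : (q + 4) * w + 3 * w = (q + 7) * w := by ring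
  have e2 : (q + 1) * w + w = (q + 2) * w := by ring
  unfold starList
  rw [← hw]
  apply embed H q w (3 * w) (n - k2 q * (v + 1)) v ((q + 1) * w + 1) (k2 q) w v ((q + 4) * w)
    ((q + 7) * w) μ κ γ m0 ((1 - 1 / (4 * (q + 4)) : ℝ) * v) (v - k2 q) (1 / (8 * (q + 4)))
    Z B Bad Zf hq (by omega) le_rfl (by omega) (by omega) hv1 (by omega) (by omega)
    (mainList_length' q w _ hq (by omega) ((Nat.sub_le _ _).trans hn)) hμ hκ hκ0 hm0 hγ hρ
  · intro x h1 h2 h3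
    refine le_trans ?_ (hnon x h1 h2 h3)
    apply sum_le_sum_of_subset_of_nonneg
    · exact filter_subset_filter _ sdiff_subset
    · intro i _ _; exact hμ i
  · have h1 : ∑ z ∈ Z, μ z ≤ ∑ z ∈ Z \ Zf, μ z + v * κ := by
      have h2 : Z ⊆ (Z \ Zf) ∪ Zf := by
        intro x hx
        rw [mem_union, mem_sdiff]
        tauto
      calc ∑ z ∈ Z, μ z ≤ ∑ z ∈ (Z \ Zf) ∪ Zf, μ z :=
            sum_le_sum_of_subset_of_nonneg h2 fun i _ _ => hμ i
        _ = ∑ z ∈ Z \ Zf, μ z + ∑ z ∈ Zf, μ z := sum_union sdiff_disjoint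
        _ ≤ ∑ z ∈ Z \ Zf, μ z + ∑ z ∈ Zf, κ := by
            have := sum_le_sum (s := Zf) fun z _ => hκ z
            linarith
        _ = _ := by rw [sum_const, hZf, nsmul_eq_mul]
    have h3 : ((q + 1) * w + 1 + k2 q + v : ℕ) ≤ (q + 2) * w := by omega
    have h4 : (((q + 1) * w + 1 + k2 q : ℕ) : ℝ) + v ≤ ((q + 2) * w : ℕ) := by
      exact_mod_cast h3
    have h5 := mul_le_mul_of_nonneg_right h4 hκ0
    linarith
  · exact hZf.le
  · exact hb
  · intro x h1 h2 h3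
    have h4 := hnon2 x h1 h2
    have h5 : ((Zf.filter (fun z => H.Adj z x)).card : ℝ) +
        ((Zf.filter (fun z => ¬ H.Adj z x)).card : ℝ) = v := by
      rw [← hZf]
      exact_mod_cast card_filter_add_card_filter_not (s := Zf) (fun x_1 => H.Adj x_1 x)
    linarith
  · have : (0 : ℝ) < 8 * (q + 4) - 1 := by
      have : (0 : ℝ) ≤ q := Nat.cast_nonneg _
      linarith
    nlinarith
  · have h1 : (1 / (4 * (q + 4)) : ℝ) ≤ 1 := by
      rw [div_le_one (by positivity)]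
      have : (0 : ℝ) ≤ q := Nat.cast_nonneg _
      linarith
    have : (0 : ℝ) ≤ v := by linarith
    nlinarith
  · have hpos : (0 : ℝ) < v - k2 q := by
      have : (0 : ℝ) < 8 * (q + 4) - 1 := by
        have : (0 : ℝ) ≤ q := Nat.cast_nonneg _
        linarith
      nlinarith
    rw [le_sub_iff_add_le, ← le_sub_iff_add_le', div_le_iff₀ hpos]
    have h6 : (1 / (4 * (q + 4)) : ℝ) = 2 * (1 / (8 * (q + 4))) := by
      field_simp
      norm_num
    rw [h6]
    set b := (1 / (8 * (q + 4)) : ℝ) with hb'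
    have hb0 : 0 < b := by positivity
    nlinarith
  · positivity
  · rw [hZf]; linarith
  · rw [hCvR]
    have : (1 / (8 * (q + 4)) : ℝ) * (16 * (q + 4) * v) = 2 * v := by
      field_simp
      norm_num
    rw [this]
    linarith
  · have e3 : k2 q * (v + 1) = k2 q * v + k2 q := by ring
    omega
  · omega

end Pool.Agent.H866R3
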