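import Pool.Agent.H866R3.Core2
set_option autoImplicit false
open Finset
open scoped Classical

namespace Pool.Agent.H866R3

variable {V : Type*} [Fintype V]

/-- Sampling of the small reservoir. -/
theorem sampleZf (H : SimpleGraph V) (q v n : ℕ) (L : Large q v n) (μ : V → ℝ)
    (hμ : ∀ z, 0 ≤ μ z) (hsum : ∑ z, μ z = 1) (hκ : ∀ z, μ z ≤ 1 / ((cC q * v : ℕ) : ℝ))
    (T : Finset V) (hT : T.card ≤ 2 * (cK q * (cC q * v)))
    (hα : ∀ x ∈ T, (1 / (2 * (q + 4)) : ℝ) ≤ ∑ z ∈ univ.filter (fun z => H.Adj z x), μ z) :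
    ∃ Zf : Finset V, Zf.card = v ∧ ∀ x ∈ T,
      (1 / (4 * (q + 4)) : ℝ) * v ≤ ((Zf.filter (fun z => H.Adj z x)).card : ℝ) := by
  have hk2 := k2_pos q
  have hv1 : 1 ≤ v := by
    have := L.hv
    have : 1 ≤ 8 * (q + 4) := by omega
    nlinarith
  have hq0 : (0 : ℝ) ≤ q := Nat.cast_nonneg _
  have hvR : (0 : ℝ) < v := by exact_mod_cast hv1
  have hCvR : ((cC q * v : ℕ) : ℝ) = 16 * (q + 4) * v := by unfold cC; push_cast; ring
  obtain ⟨Zf, h1, h2⟩ := sample H μ hμ hsum (1 / ((cC q * v : ℕ) : ℝ)) hκ (by positivity) T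
    (1 / (2 * (q + 4))) (1 / (16 * (q + 4))) v (by positivity)
    (by rw [div_lt_one (by positivity)]; linarith)
    (by apply one_div_le_one_div_of_le <;> linarith)
    (by rw [div_le_one (by positivity)]; linarith) hα
    (by rw [hCvR]; apply le_of_eq; field_simp)
    (by
      refine lt_of_le_of_lt ?_ L.hexp
      apply mul_le_mul_of_nonneg_right _ (Real.exp_pos _).le
      exact_mod_cast hT)
  refine ⟨Zf, h1, fun x hx => ?_⟩
  have h3 := h2 x hx
  have e : (1 / (2 * (q + 4)) - 4 * (1 / (16 * (q + 4))) : ℝ) = 1 / (4 * (q + 4)) := by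
    field_simp
    norm_num
  rwa [e] at h3

theorem caseR (H : SimpleGraph V) (q v n : ℕ) (L : Large q v n)
    (hN : Fintype.card V = n + (q + 7) * (cC q * v)) (Z B Bad : Finset V)
    (hZc : Z.card = cM q * (cC q * v))
    (hZ : ∀ x, x ∉ B → (1 / 2 - 5 / (80 * q) : ℝ) * (cM q * (cC q * v) : ℕ) ≤
      ((Z.filter (fun z => H.Adj z x)).card : ℝ))
    (hB : B.card ≤ cK q * (cC q * v)) (hBad : Bad.card ≤ (q + 4) * (cC q * v))
    (μf : V → ℝ) (hμ : ∀ z, 0 ≤ μf z) (hsum : ∑ z, μf z = 1)
    (hκ : ∀ z, μf z ≤ 1 / ((cC q * v : ℕ) : ℝ))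
    (hα : ∀ x, x ∉ Bad → (1 / (2 * (q + 4)) : ℝ) ≤ ∑ z ∈ univ.filter (fun z => H.Adj z x), μf z) :
    Emb H univ (starList q v n) := by
  have hq := L.hq
  have hk2 := k2_pos q
  have hv1 : 1 ≤ v := by
    have := L.hv
    have : 1 ≤ 8 * (q + 4) := by omega
    nlinarith
  have hq1 : (1 : ℝ) ≤ q := by exact_mod_cast hq
  have hMK : cM q ≤ cK q := by
    unfold cK
    have : 1 ≤ 80 * q := by omega
    nlinarith
  have hMK' : cM q * (cC q * v) ≤ cK q * (cC q * v) := Nat.mul_le_mul_right _ hMK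
  have hMpos : 0 < cM q := by unfold cM; positivity
  have hCpos : 0 < cC q * v := by unfold cC; positivity
  have hMCpos : (0 : ℝ) < (cM q * (cC q * v) : ℕ) := by
    exact_mod_cast Nat.mul_pos hMpos hCpos
  obtain ⟨Zf, hZfc, hZf⟩ := sampleZf H q v n L μf hμ hsum hκ ((Z ∪ B) \ Bad)
    (by
      have h1 := card_le_card (sdiff_subset : (Z ∪ B) \ Bad ⊆ Z ∪ B)
      have h2 := card_union_le Z B
      omega)
    (fun x hx => hα x (mem_sdiff.1 hx).2)
  apply embed' H q v n L hN (fun z => if z ∈ Z then 1 / ((cM q * (cC q * v) : ℕ) : ℝ) else 0)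
    (1 / ((cM q * (cC q * v) : ℕ) : ℝ)) (1 / 2 + 5 / (80 * q)) (1 - (q + 2) / cM q) Z B Bad Zf
  · intro z
    split_ifs <;> positivity
  · intro z
    split_ifs
    · exact le_rfl
    · positivity
  · positivity
  · have h1 : ((q : ℝ) + 2) / cM q < 1 := by
      rw [div_lt_one (by exact_mod_cast hMpos)]
      have : q + 2 < cM q := by
        unfold cM
        nlinarith [Nat.one_le_pow 2 q hq]
      exact_mod_cast this
    linarith
  · positivity
  · have hη : ((q : ℝ) + 2) / cM q ≤ 1 / (10 * q) := by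
      rw [div_le_div_iff₀ (by exact_mod_cast hMpos) (by positivity)]
      have : (cM q : ℝ) = 3200 * q ^ 2 * (q + 1) := by unfold cM; push_cast; ring
      rw [this]
      nlinarith [mul_nonneg (by linarith : (0:ℝ) ≤ q) (by linarith : (0:ℝ) ≤ (q:ℝ) - 1),
        mul_pos (by linarith : (0:ℝ) < q) (by linarith : (0:ℝ) < q)]
    set η := ((q : ℝ) + 2) / cM q with hη'
    have hη0 : 0 ≤ η := by positivity
    have hη1 : η ≤ 1 / 10 := by
      refine hη.trans ?_
      apply one_div_le_one_div_of_le <;> linarith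
    have h1η : 0 < 1 - η := by linarith
    rw [le_sub_iff_add_le, ← le_sub_iff_add_le', div_le_iff₀ h1η]
    have e1 : (1 - (4 * q - 1 : ℝ) / (8 * q)) = 1 / 2 + 1 / (8 * q) := by
      field_simp
      ring
    rw [e1]
    have e2 : (5 / (80 * q) : ℝ) = (1 / (8 * q)) / 2 := by field_simp; norm_num
    have e3 : (1 / (10 * q) : ℝ) = (1 / (8 * q)) * (4 / 5) := by field_simp; norm_num
    rw [e3] at hη
    rw [e2]
    set a := (1 / (8 * q) : ℝ) with ha
    have ha0 : 0 < a := by positivity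
    have ha1 : a ≤ 1 / 8 := by
      apply one_div_le_one_div_of_le <;> linarith
    nlinarith
  · intro x h1 h2 h3
    have h4 := hZ x h2
    have h5 : ((Z.filter (fun z => H.Adj z x)).card : ℝ) +
        ((Z.filter (fun z => ¬ H.Adj z x)).card : ℝ) = (cM q * (cC q * v) : ℕ) := by
      rw [← hZc]
      exact_mod_cast card_filter_add_card_filter_not (s := Z) (fun x_1 => H.Adj x_1 x)
    have h6 : ∑ z ∈ Z.filter (fun z => ¬ H.Adj z x),
        (if z ∈ Z then 1 / ((cM q * (cC q * v) : ℕ) : ℝ) else 0) =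
        ((Z.filter (fun z => ¬ H.Adj z x)).card : ℝ) * (1 / ((cM q * (cC q * v) : ℕ) : ℝ)) := by
      rw [← nsmul_eq_mul, ← sum_const]
      apply sum_congr rfl
      intro z hz
      rw [if_pos (mem_filter.1 hz).1]
    rw [h6, mul_one_div, div_le_iff₀ hMCpos]
    linarith
  · have h6 : ∑ z ∈ Z, (if z ∈ Z then 1 / ((cM q * (cC q * v) : ℕ) : ℝ) else 0) = 1 := by
      rw [sum_congr rfl (fun z hz => if_pos hz), sum_const, hZc, nsmul_eq_mul]
      field_simp
    rw [h6]
    have hC0 : (0 : ℝ) < (cC q * v : ℕ) := by exact_mod_cast hCpos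
    have hM0 : (0 : ℝ) < cM q := by exact_mod_cast hMpos
    have : (((q + 2) * (cC q * v) : ℕ) : ℝ) * (1 / ((cM q * (cC q * v) : ℕ) : ℝ)) =
        (q + 2) / cM q := by
      rw [Nat.cast_mul, Nat.cast_mul (cM q)]
      generalize ((cC q * v : ℕ) : ℝ) = W at hC0 ⊢
      push_cast
      field_simp
    rw [this]
    linarith
  · exact hZfc
  · exact hBad
  · omega
  · intro x hx hxBad
    exact hZf x (by
      rw [mem_sdiff, mem_union]
      exact ⟨hx, hxBad⟩)

theorem caseL (H H' : SimpleGraph V) (hH' : ∀ x y, H'.Adj x y ↔ x ≠ y ∧ ¬ H.Adj x y) (q v n : ℕ) (L : Large q v n)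
    (hN : Fintype.card V = n + (q + 7) * (cC q * v)) (B0 : Finset V)
    (hB0 : B0.card ≤ cK q * (cC q * v)) (ν : V → ℝ)
    (hν : ν ∈ Spread B0 ((q + 4) * (cC q * v)))
    (hbad : (univ.filter (fun y => (1 / (q + 4) : ℝ) ≤
      ∑ x, ν x * (if H.Adj x y then (1 : ℝ) else 0))).card < cC q * v) :
    Emb H' univ (starList q v n) := by
  obtain ⟨hν0, hνκ, hνs, hνsum⟩ := hν
  have hq := L.hq
  have hk2 := k2_pos q
  have hv1 : 1 ≤ v := by
    have := L.hv
    have : 1 ≤ 8 * (q + 4) := by omega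
    nlinarith
  have hq1 : (1 : ℝ) ≤ q := by exact_mod_cast hq
  have hCpos : 0 < cC q * v := by unfold cC; positivity
  have hC0 : (0 : ℝ) < (cC q * v : ℕ) := by exact_mod_cast hCpos
  have hCv : 16 * (q + 4) ≤ cC q * v := by
    unfold cC
    nlinarith
  have hCvR : (16 * (q + 4) : ℝ) ≤ (cC q * v : ℕ) := by exact_mod_cast hCv
  set w := cC q * v with hw
  set Bad := univ.filter (fun y => (1 / (q + 4) : ℝ) ≤
      ∑ x, ν x * (if H.Adj x y then (1 : ℝ) else 0)) with hBad
  have hsumB : ∑ z ∈ B0, ν z = 1 := by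
    rw [← hνsum]
    exact sum_subset (subset_univ _) fun x _ hx => hνs x hx
  have hκ1 : (1 / ((q + 4) * w : ℕ) : ℝ) ≤ 1 / (w : ℕ) := by
    apply one_div_le_one_div_of_le hC0
    have : w ≤ (q + 4) * w := by nlinarith
    exact_mod_cast this
  have hκ2 : (1 / ((q + 4) * w : ℕ) : ℝ) ≤ 1 / 16 := by
    apply one_div_le_one_div_of_le (by norm_num)
    have : 16 ≤ (q + 4) * w := by nlinarith
    exact_mod_cast this
  have hadj : ∀ x, x ∉ Bad → ∑ z ∈ univ.filter (fun z => H.Adj z x), ν z < 1 / (q + 4) := by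
    intro x hx
    rw [hBad, mem_filter] at hx
    push Not at hx
    have := hx (mem_univ _)
    rw [sum_filter]
    refine lt_of_le_of_lt (le_of_eq ?_) this
    apply sum_congr rfl
    intro z _
    split_ifs <;> simp
  obtain ⟨Zf, hZfc, hZf⟩ := sampleZf H' q v n L ν hν0 hνsum
    (fun z => (hνκ z).trans hκ1) (B0 \ Bad)
    (by
      have h1 := card_le_card (sdiff_subset : B0 \ Bad ⊆ B0)
      rw [← hw]
      omega)
    (fun x hx => by
      rw [mem_sdiff] at hx
      have h1 := hadj x hx.2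
      have h2 : ∑ z ∈ univ.filter (fun z => H'.Adj z x), ν z =
          1 - ∑ z ∈ univ.filter (fun z => H.Adj z x), ν z - ν x := by
        have h3 : ∑ z, ν z = ∑ z ∈ univ.filter (fun z => H.Adj z x), ν z +
            (ν x + ∑ z ∈ univ.filter (fun z => H'.Adj z x), ν z) := by
          rw [← sum_filter_add_sum_filter_not univ (fun z => H.Adj z x)]
          congr 1
          have h4 : univ.filter (fun z => ¬ H.Adj z x) =
              insert x (univ.filter (fun z => H'.Adj z x)) := by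
            ext z
            simp only [mem_filter, mem_univ, true_and, mem_insert, hH']
            constructor
            · intro h
              by_cases hz : z = x
              · exact Or.inl hz
              · exact Or.inr ⟨hz, h⟩
            · rintro (rfl | h)
              · exact SimpleGraph.irrefl _
              · exact h.2
          rw [h4, sum_insert (by simp)]
        rw [hνsum] at h3
        linarith
      rw [h2]
      have h5 := (hνκ x).trans hκ2
      have h6 : (1 / (q + 4) : ℝ) ≤ 1 / 5 := by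
        apply one_div_le_one_div_of_le <;> linarith
      have h7 : (1 / (2 * (q + 4)) : ℝ) ≤ 1 / 10 := by
        apply one_div_le_one_div_of_le <;> linarith
      linarith)
  apply embed' H' q v n L hN ν (1 / ((q + 4) * w : ℕ)) (1 / (q + 4)) (2 / (q + 4)) B0 ∅ Bad Zf
    hν0 hνκ (by positivity) (by positivity) (by positivity)
  · have e : (1 / (q + 4) : ℝ) / (2 / (q + 4)) = 1 / 2 := by field_simp
    rw [e, div_le_iff₀ (by positivity)]
    linarith
  · intro x h1 _ h3
    refine le_trans ?_ (hadj x h3).le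
    apply sum_le_sum_of_subset_of_nonneg
    · intro z hz
      simp only [mem_filter, mem_univ, true_and, hH', not_and, not_not] at hz ⊢
      exact hz.2 (fun h => h1 (h ▸ hz.1))
    · intro i _ _; exact hν0 i
  · rw [hsumB]
    have : (((q + 2) * w : ℕ) : ℝ) * (1 / ((q + 4) * w : ℕ)) = (q + 2) / (q + 4) := by
      push_cast
      field_simp
    rw [this]
    apply le_of_eq
    field_simp
    ring
  · exact hZfc
  · nlinarith
  · rw [card_empty, ← hw]
    omega
  · intro x hx hxBad
    rcases hx with hx | hx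
    · exact hZf x (mem_sdiff.2 ⟨hx, hxBad⟩)
    · simp at hx

end Pool.Agent.H866R3
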