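import Pool.Agent.H866R3.Core3
set_option autoImplicit false
open Finset
open scoped Classical

namespace Pool.Agent.H866R3

variable {V : Type*} [Fintype V]

theorem main_of_good (H H' : SimpleGraph V) (hH' : ∀ x y, H'.Adj x y ↔ x ≠ y ∧ ¬ H.Adj x y)
    (q v n : ℕ) (L : Large q v n) (hN : Fintype.card V = n + (q + 7) * (cC q * v))
    (μ0 : V → ℝ) (hμ0 : μ0 ∈ Spread univ (cK q * (cC q * v))) (B0 : Finset V)
    (hB0 : B0.card ≤ cK q * (cC q * v))
    (hgood : ∀ x, x ∉ B0 → (1 / 2 - 1 / (80 * q) : ℝ) ≤
      ∑ z ∈ univ.filter (fun z => H.Adj z x), μ0 z) :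
    Emb H univ (starList q v n) ∨ Emb H' univ (starList q v n) := by
  obtain ⟨hμ00, hμ0κ, -, hμ0sum⟩ := hμ0
  have hq := L.hq
  have hk2 := k2_pos q
  have hv1 : 1 ≤ v := by
    have := L.hv
    have : 1 ≤ 8 * (q + 4) := by omega
    nlinarith
  have hq1 : (1 : ℝ) ≤ q := by exact_mod_cast hq
  have hMK : cM q ≤ cK q := by
    unfold cK
    have : 1 ≤ 80 * q := by omega
    nlinarith
  have hMpos : 0 < cM q := by unfold cM; positivity
  have hCpos : 0 < cC q * v := by unfold cC; positivity
  have hC0 : (0 : ℝ) < (cC q * v : ℕ) := by exact_mod_cast hCpos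
  have hcK : cK q = 80 * q * cM q := rfl
  have ht := L.ht
  have hn := L.hn
  set w := cC q * v with hw
  have hK1 : 1 ≤ cK q := by omega
  have h80 : (1 / (80 * q) : ℝ) ≤ 1 / 80 := by
    apply one_div_le_one_div_of_le <;> linarith
  have h80' : (0 : ℝ) < 1 / (80 * q) := by positivity
  have hM0 : (0 : ℝ) < cM q := by exact_mod_cast hMpos
  -- the main reservoir
  obtain ⟨Z, hZc, hZ⟩ := sample H μ0 hμ00 hμ0sum (1 / ((cK q * w : ℕ) : ℝ)) hμ0κ (by positivity)
    (univ \ B0) (1 / 2 - 1 / (80 * q)) (1 / (80 * q)) (cM q * w) h80' (by linarith)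
    (by linarith) (by linarith)
    (fun x hx => hgood x (mem_sdiff.1 hx).2)
    (by
      rw [hcK]
      rw [Nat.cast_mul, Nat.cast_mul (80 * q * cM q)]
      generalize (w : ℝ) = W at hC0 ⊢
      apply le_of_eq
      push_cast
      field_simp)
    (by
      have h1 : ((univ \ B0).card : ℝ) ≤ 2 ^ (q * w + 1) := by
        have h2 : (univ \ B0).card ≤ 2 ^ (q * w + 1) := by
          refine (card_le_univ _).trans ?_
          rw [hN, pow_succ]
          omega
        exact_mod_cast h2
      have h3 : (2 : ℝ) * (1 / (80 * q)) ^ 2 * (cM q * w : ℕ) = ((q + 1) * w : ℕ) := by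
        have : (cM q : ℝ) = 3200 * q ^ 2 * (q + 1) := by unfold cM; push_cast; ring
        rw [Nat.cast_mul, Nat.cast_mul, this]
        push_cast
        field_simp
        norm_num
        rw [hw, Nat.cast_mul]
        ring
      rw [h3]
      have h4 : (2 : ℝ) ^ (q * w + 1) ≤ 2 ^ ((q + 1) * w) := by
        apply pow_le_pow_right₀ (by norm_num)
        have : (q + 1) * w = q * w + w := by ring
        omega
      have h5 : (2 : ℝ) ^ ((q + 1) * w) < Real.exp (((q + 1) * w : ℕ) : ℝ) := by
        rw [← mul_one (((q + 1) * w : ℕ) : ℝ), Real.exp_nat_mul]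
        apply pow_lt_pow_left₀ _ (by norm_num)
        · positivity
        · have := Real.exp_one_gt_d9
          linarith
      rw [Real.exp_neg, ← div_eq_mul_inv, div_lt_one (Real.exp_pos _)]
      linarith)
  have hZ' : ∀ x, x ∉ B0 → (1 / 2 - 5 / (80 * q) : ℝ) * (cM q * (cC q * v) : ℕ) ≤
      ((Z.filter (fun z => H.Adj z x)).card : ℝ) := by
    intro x hx
    have h1 := hZ x (by rw [mem_sdiff]; exact ⟨mem_univ _, hx⟩)
    have e : (1 / 2 - 1 / (80 * q) - 4 * (1 / (80 * q)) : ℝ) = 1 / 2 - 5 / (80 * q) := by
      ring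
    rw [e] at h1
    exact h1
  have hβ : (1 / (2 * (q + 4)) : ℝ) ≤ 1 / 10 := by
    apply one_div_le_one_div_of_le <;> linarith
  have hwK : w ≤ cK q * w := by nlinarith
  have hκK : (1 / ((cK q * w : ℕ) : ℝ)) ≤ 1 / (w : ℝ) := by
    apply one_div_le_one_div_of_le hC0
    exact_mod_cast hwK
  by_cases hB : B0.card < (q + 4) * w
  · left
    apply caseR H q v n L hN Z B0 B0 hZc hZ' hB0 hB.le μ0 hμ00 hμ0sum
      (fun z => (hμ0κ z).trans hκK)
    intro x hx
    have := hgood x hx
    linarith
  · push Not at hB
    have hwN : w ≤ (univ : Finset V).card := by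
      rw [card_univ, hN]
      nlinarith
    rcases dichotomy (fun x y => if H.Adj x y then (1 : ℝ) else 0) univ B0 w ((q + 4) * w)
      (by omega) (by nlinarith) hwN hB (1 / (q + 4)) with ⟨μ', hμ', hc⟩ | ⟨ν, hν, hc⟩
    · left
      obtain ⟨hμ'0, hμ'κ, -, hμ'sum⟩ := hμ'
      apply caseR H q v n L hN Z B0 _ hZc hZ' hB0 hc.le (fun z => μ0 z / 2 + μ' z / 2)
      · intro z
        have h1 := hμ00 z
        have h2 := hμ'0 z
        positivity
      · rw [sum_add_distrib, ← sum_div, ← sum_div, hμ0sum, hμ'sum]
        norm_num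
      · intro z
        have h1 := (hμ0κ z).trans hκK
        have h2 := hμ'κ z
        rw [← hw]
        linarith
      · intro x hx
        rw [sum_add_distrib, ← sum_div, ← sum_div]
        have h1 : 0 ≤ ∑ z ∈ univ.filter (fun z => H.Adj z x), μ0 z :=
          sum_nonneg fun z _ => hμ00 z
        have h2 : 0 ≤ ∑ z ∈ univ.filter (fun z => H.Adj z x), μ' z :=
          sum_nonneg fun z _ => hμ'0 z
        by_cases hxB : x ∈ B0
        · rw [mem_filter] at hx
          push Not at hx
          have h3 := hx hxB
          have h4 : ∑ y, μ' y * (if H.Adj x y then (1 : ℝ) else 0) =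
              ∑ z ∈ univ.filter (fun z => H.Adj z x), μ' z := by
            rw [sum_filter]
            apply sum_congr rfl
            intro z _
            rw [SimpleGraph.adj_comm]
            split_ifs <;> simp
          rw [h4] at h3
          have h5 : (1 / (2 * (q + 4)) : ℝ) = 1 / (q + 4) / 2 := by field_simp
          rw [h5]
          linarith
        · have h3 := hgood x hxB
          linarith
    · right
      exact caseL H H' hH' q v n L hN B0 hB0 ν hν (by
        refine lt_of_le_of_lt (card_le_card ?_) hc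
        intro y hy
        exact hy)

/-- The main combinatorial theorem: in every two-colouring one colour contains the star forest. -/
theorem core (H : SimpleGraph V) (q v n : ℕ) (L : Large q v n)
    (hN : Fintype.card V = n + (q + 7) * (cC q * v)) :
    Emb H univ (starList q v n) ∨ Emb Hᶜ univ (starList q v n) := by
  have hq := L.hq
  have hk2 := k2_pos q
  have hv1 : 1 ≤ v := by
    have := L.hv
    have : 1 ≤ 8 * (q + 4) := by omega
    nlinarith
  have hq1 : (1 : ℝ) ≤ q := by exact_mod_cast hq
  have hMpos : 0 < cM q := by unfold cM; positivity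
  have hCpos : 0 < cC q * v := by unfold cC; positivity
  have hcK : cK q = 80 * q * cM q := rfl
  have hK1 : 80 * q ≤ cK q * (cC q * v) := by
    rw [hcK]
    have : 80 * q ≤ 80 * q * cM q := Nat.le_mul_of_pos_right _ hMpos
    exact this.trans (Nat.le_mul_of_pos_right _ hCpos)
  have hKV : cK q * (cC q * v) ≤ (univ : Finset V).card := by
    rw [card_univ, hN]
    have := L.hK
    omega
  have hKR : (80 * q : ℝ) ≤ (cK q * (cC q * v) : ℕ) := by exact_mod_cast hK1
  have hκ : (1 / (cK q * (cC q * v) : ℕ) : ℝ) ≤ 1 / (80 * q) := by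
    apply one_div_le_one_div_of_le (by positivity) hKR
  set K := cK q * (cC q * v) with hK
  have hP : ∀ (μ : V → ℝ) (x : V), (∑ y, μ y * (if H.Adj x y then (1 : ℝ) else
      if x = y then 1 / 2 else 0)) = ∑ z ∈ univ.filter (fun z => H.Adj z x), μ z + μ x / 2 := by
    intro μ x
    have e : μ x / 2 = ∑ z, if z = x then μ z / 2 else 0 := by simp
    rw [sum_filter, e, ← sum_add_distrib]
    apply sum_congr rfl
    intro z _
    rw [SimpleGraph.adj_comm]
    by_cases h1 : H.Adj z x
    · have h2 : z ≠ x := h1.ne
      simp [h1, h2]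
    · by_cases h2 : z = x
      · subst h2
        simp [h1]
        ring
      · simp [h1, h2, Ne.symm h2]
  rcases dichotomy (fun x y => if H.Adj x y then (1 : ℝ) else if x = y then 1 / 2 else 0)
    univ univ K K (by omega) (by omega) hKV hKV (1 / 2) with ⟨μ, hμ, hc⟩ | ⟨ν, hν, hc⟩
  · have := main_of_good H Hᶜ (fun x y => SimpleGraph.compl_adj H x y) q v n L hN μ hμ _ hc.le (by
      intro x hx
      rw [mem_filter] at hx
      push Not at hx
      have h1 := hx (mem_univ _)
      rw [hP] at h1
      have h2 := (hμ.2.1 x).trans hκ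
      have h3 : (0 : ℝ) < 1 / (80 * q) := by positivity
      linarith)
    exact this
  · have := main_of_good Hᶜ H (fun x y => by
      rw [SimpleGraph.compl_adj]
      constructor
      · intro h
        exact ⟨h.ne, fun h' => h'.2 h⟩
      · rintro ⟨h1, h2⟩
        by_contra h3
        exact h2 ⟨h1, h3⟩) q v n L hN ν hν _ hc.le (by
      intro y hy
      rw [mem_filter] at hy
      push Not at hy
      have h1 := hy (mem_univ _)
      have h2 : ∑ x, ν x * (if H.Adj x y then (1 : ℝ) else if x = y then 1 / 2 else 0) =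
          ∑ x, ν x * (if H.Adj y x then (1 : ℝ) else if y = x then 1 / 2 else 0) := by
        apply sum_congr rfl
        intro x _
        rw [SimpleGraph.adj_comm]
        simp only [eq_comm]
      rw [h2, hP] at h1
      have h3 := (hν.2.1 y).trans hκ
      have h4 : ∑ z, ν z = ∑ z ∈ univ.filter (fun z => H.Adj z y), ν z +
          (ν y + ∑ z ∈ univ.filter (fun z => Hᶜ.Adj z y), ν z) := by
        rw [← sum_filter_add_sum_filter_not univ (fun z => H.Adj z y)]
        congr 1
        have h5 : univ.filter (fun z => ¬ H.Adj z y) =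
            insert y (univ.filter (fun z => Hᶜ.Adj z y)) := by
          ext z
          simp only [mem_filter, mem_univ, true_and, mem_insert, SimpleGraph.compl_adj]
          constructor
          · intro h
            by_cases hz : z = y
            · exact Or.inl hz
            · exact Or.inr ⟨hz, h⟩
          · rintro (rfl | h)
            · exact SimpleGraph.irrefl _
            · exact h.2
        rw [h5, sum_insert (by simp)]
      rw [hν.2.2.2] at h4
      have h6 : (0 : ℝ) < 1 / (80 * q) := by positivity
      have h7 : 1 / 2 - 1 / (80 * q) ≤ ∑ z ∈ univ.filter (fun z => Hᶜ.Adj z y), ν z := by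
        linarith
      refine h7.trans (le_of_eq ?_)
      apply sum_congr _ (fun _ _ => rfl)
      ext z
      simp only [mem_filter])
    exact this.symm

end Pool.Agent.H866R3
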