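import Pool.Agent.H866R3.EdgeUpper
set_option autoImplicit false
open Filter Topology

namespace Pool.Agent.H866R3.Edge

theorem choose_q (η : ℝ) (h0 : 0 < η) (h1 : η < 1) : ∃ q : ℕ, 13 ≤ q ∧ 4 / (q : ℝ) ≤ η ∧
    (2 : ℝ) ^ (-((1 - η / 2) / (1 - η))) ≤ 1 / 2 - 6 / (q : ℝ) := by
  have hlt : (2 : ℝ) ^ (-((1 - η / 2) / (1 - η))) < 1 / 2 := by
    have h2 : (2 : ℝ) ^ (-(1 : ℝ)) = 1 / 2 := by
      rw [Real.rpow_neg (by norm_num), Real.rpow_one]; norm_num
    rw [← h2]
    apply Real.rpow_lt_rpow_of_exponent_lt (by norm_num)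
    rw [neg_lt_neg_iff, lt_div_iff₀ (by linarith)]
    linarith
  have ht : Tendsto (fun q : ℕ => 1 / 2 - 6 / (q : ℝ)) atTop (𝓝 (1 / 2)) := by
    have := (tendsto_const_div_atTop_nhds_zero_nat (6 : ℝ)).const_sub (1 / 2 : ℝ)
    simpa using this
  have ht2 : Tendsto (fun q : ℕ => 4 / (q : ℝ)) atTop (𝓝 0) :=
    tendsto_const_div_atTop_nhds_zero_nat (4 : ℝ)
  obtain ⟨q, ⟨h3, h4⟩, h5⟩ := (((ht.eventually_const_le hlt).and
    (ht2.eventually_le_const h0)).and (eventually_ge_atTop 13)).exists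
  exact ⟨q, h5, h4, h3⟩

theorem upper_exists (ε : ℝ) (hε : 0 < ε) (hε1 : ε < 1) : ∀ᶠ N : ℕ in atTop,
    ∃ q d s J, Cond q N d s J ∧ (1 - ε) * (N * Real.logb 2 N) ≤ ((J * d * s : ℕ) : ℝ) := by
  set η : ℝ := ε / 4 with hη
  have hη0 : 0 < η := by positivity
  have hη1 : η < 1 := by rw [hη]; linarith
  obtain ⟨q, hq13, hq4, hqρ⟩ := choose_q η hη0 hη1
  have hqR : (13 : ℝ) ≤ q := by exact_mod_cast hq13
  have hq0 : (0 : ℝ) < q := by linarith
  have hcast : Tendsto (fun N : ℕ => (N : ℝ)) atTop atTop := tendsto_natCast_atTop_atTop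
  have e1 : ∀ᶠ N : ℕ in atTop, Real.log (N : ℝ) ≤ 1 / q ^ 4 * N := by
    have := (Real.isLittleO_log_id_atTop).bound (c := 1 / (q : ℝ) ^ 4) (by positivity)
    have h2 := hcast.eventually this
    filter_upwards [h2, eventually_ge_atTop 1] with N hN hN1
    have h3 : ‖id (N : ℝ)‖ = N := by simp
    rw [h3] at hN
    exact (le_abs_self _).trans hN
  have e2 : ∀ᶠ N : ℕ in atTop, 2 * (q : ℝ) ≤ (N : ℝ) ^ (η / 2) :=
    ((tendsto_rpow_atTop (by positivity : 0 < η / 2)).comp hcast).eventually_ge_atTop _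
  have e3 : ∀ᶠ N : ℕ in atTop, Real.logb 2 (N : ℝ) ≤ (N : ℝ) ^ (η / 2) / (4 * q ^ 4) := by
    have := (isLittleO_log_rpow_atTop (r := η / 2) (by positivity)).bound
      (c := Real.log 2 / (4 * (q : ℝ) ^ 4)) (by have := Real.log_pos (by norm_num : (1:ℝ) < 2)
                                                positivity)
    have h2 := hcast.eventually this
    filter_upwards [h2, eventually_ge_atTop 1] with N hN hN1
    have h3 : ‖(N : ℝ) ^ (η / 2)‖ = (N : ℝ) ^ (η / 2) := by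
      rw [Real.norm_eq_abs, abs_of_nonneg (Real.rpow_nonneg (by positivity) _)]
    rw [h3] at hN
    have hl : 0 < Real.log 2 := Real.log_pos (by norm_num)
    rw [Real.logb, div_le_iff₀ hl]
    refine (le_abs_self _).trans (hN.trans (le_of_eq ?_))
    ring
  have e4 : ∀ᶠ N : ℕ in atTop, 1 / η ≤ Real.logb 2 (N : ℝ) :=
    ((Real.tendsto_logb_atTop (by norm_num)).comp hcast).eventually_ge_atTop _
  filter_upwards [e1, e2, e3, e4, eventually_gt_atTop (2 * q ^ 2)] with N h1 h2 h3 h4 h5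
  set ℓ := Real.logb 2 (N : ℝ) with hℓ
  have hNR : 2 * (q : ℝ) ^ 2 < N := by exact_mod_cast h5
  have hN0 : (0 : ℝ) < N := by
    have : (0:ℝ) < 2 * (q : ℝ) ^ 2 := by positivity
    linarith
  have hℓ0 : 0 < ℓ := lt_of_lt_of_le (by positivity) h4
  set y := (N : ℝ) ^ (η / 2) with hy
  have hy0 : 0 < y := Real.rpow_pos_of_pos hN0 _
  set d := ⌊(1 - η) * ℓ⌋₊ with hd
  set s := ⌊y / q⌋₊ with hs
  set J := ((q - 3) * N) / (q * s) with hJ
  have hdle : (d : ℝ) ≤ (1 - η) * ℓ := Nat.floor_le (mul_nonneg (by linarith) hℓ0.le)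
  have hdge : (1 - η) * ℓ - 1 < d := Nat.sub_one_lt_floor _
  have hsle : (s : ℝ) ≤ y / q := Nat.floor_le (by positivity)
  have hsge : y / q - 1 < s := Nat.sub_one_lt_floor _
  have hyq : 2 ≤ y / q := by rw [le_div_iff₀ hq0]; exact h2
  have hs1 : 1 ≤ s := by
    have : (1 : ℝ) < (s : ℝ) + 1 := by linarith
    have h' : (0 : ℝ) < s := by linarith
    exact_mod_cast h'
  have hs0 : (0 : ℝ) < s := by exact_mod_cast hs1
  have hs2 : y / (2 * q) ≤ s := by
    have : y / (2 * q) = y / q / 2 := by field_simp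
    rw [this]
    linarith
  have hρ0 : 0 < 1 / 2 - 6 / (q : ℝ) := lt_of_lt_of_le (Real.rpow_pos_of_pos (by norm_num) _) hqρ
  have hρ1 : 1 / 2 - 6 / (q : ℝ) ≤ 1 := by
    have : 0 < 6 / (q : ℝ) := by positivity
    linarith
  have hpow : y ≤ (1 / 2 - 6 / (q : ℝ)) ^ d * N := by
    have a1 : ((2 : ℝ) ^ (-((1 - η / 2) / (1 - η)))) ^ d ≤ (1 / 2 - 6 / (q : ℝ)) ^ d :=
      pow_le_pow_left₀ (Real.rpow_nonneg (by norm_num) _) hqρ d
    have a2 : ((2 : ℝ) ^ (-((1 - η / 2) / (1 - η)))) ^ d =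
        (2 : ℝ) ^ (-((1 - η / 2) / (1 - η)) * d) := by
      rw [← Real.rpow_natCast, ← Real.rpow_mul (by norm_num)]
    have a3 : -((1 - η / 2)) * ℓ ≤ -((1 - η / 2) / (1 - η)) * d := by
      have hb : 0 ≤ (1 - η / 2) / (1 - η) := div_nonneg (by linarith) (by linarith)
      have := mul_le_mul_of_nonneg_left hdle hb
      have e : (1 - η / 2) / (1 - η) * ((1 - η) * ℓ) = (1 - η / 2) * ℓ := by
        have : 1 - η ≠ 0 := by linarith
        field_simp
      rw [e] at this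
      linarith
    have a4 : (2 : ℝ) ^ (-((1 - η / 2)) * ℓ) ≤ (2 : ℝ) ^ (-((1 - η / 2) / (1 - η)) * d) :=
      Real.rpow_le_rpow_of_exponent_le (by norm_num) a3
    have a5 : (2 : ℝ) ^ (-((1 - η / 2)) * ℓ) * N = y := by
      have b1 : (2 : ℝ) ^ (-((1 - η / 2)) * ℓ) = (N : ℝ) ^ (-(1 - η / 2)) := by
        rw [mul_comm, Real.rpow_mul (by norm_num), hℓ,
          Real.rpow_logb (by norm_num) (by norm_num) hN0]
      rw [b1, hy]
      nth_rewrite 2 [← Real.rpow_one (N : ℝ)]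
      rw [← Real.rpow_add hN0]
      congr 1
      ring
    rw [← a5]
    apply mul_le_mul_of_nonneg_right _ hN0.le
    rw [a2] at a1
    exact a4.trans a1
  have hqs0 : (0 : ℝ) < q * s := by positivity
  have hJup : (J : ℝ) * (q * s) ≤ (q - 3) * N := by
    have : J * (q * s) ≤ (q - 3) * N := Nat.div_mul_le_self _ _
    have h' : ((J * (q * s) : ℕ) : ℝ) ≤ (((q - 3) * N : ℕ) : ℝ) := by exact_mod_cast this
    push_cast [Nat.cast_sub (by omega : 3 ≤ q)] at h'
    exact h'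
  have hJlow : (q - 3) * (N : ℝ) < (J + 1) * (q * s) := by
    have : (q - 3) * N < (J + 1) * (q * s) := by
      have hpos : 0 < q * s := Nat.mul_pos (by omega) (by omega)
      rw [hJ]
      exact (Nat.div_lt_iff_lt_mul hpos).1 (Nat.lt_succ_self _)
    have h' : (((q - 3) * N : ℕ) : ℝ) < (((J + 1) * (q * s) : ℕ) : ℝ) := by exact_mod_cast this
    push_cast [Nat.cast_sub (by omega : 3 ≤ q)] at h'
    exact h'
  have hmge : (N : ℝ) / q ^ 2 - 1 < ((N / q / q : ℕ) : ℝ) := by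
    rw [Nat.div_div_eq_div_mul]
    have : (N : ℝ) / (q ^ 2) < ((N / (q * q) : ℕ) : ℝ) + 1 := by
      rw [div_lt_iff₀ (by positivity)]
      have := Nat.lt_div_mul_add (a := N) (b := q * q) (Nat.mul_pos (by omega) (by omega))
      have h' : (N : ℝ) < ((N / (q * q) * (q * q) + q * q : ℕ) : ℝ) := by exact_mod_cast this
      push_cast at h' ⊢
      nlinarith
    linarith
  have hsN : (s : ℝ) ≤ (1 / 2 - 6 / (q : ℝ)) ^ d * (N / q) := by
    refine hsle.trans ?_
    rw [← mul_div_assoc]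
    gcongr
  refine ⟨q, d, s, J, ⟨hq13, by omega, ?_, ?_, ?_, hs1, hsN⟩, ?_⟩
  · -- exponential condition
    have b1 : (N : ℝ) = Real.exp (Real.log N) := (Real.exp_log hN0).symm
    have b2 : (N : ℝ) * Real.exp (-(2 * (1 / (q : ℝ)) ^ 2 * ((N / q / q : ℕ) : ℝ))) ≤
        Real.exp (1 / q ^ 4 * N + -(2 * (1 / (q : ℝ)) ^ 2 * (N / q ^ 2 - 1))) := by
      rw [Real.exp_add]
      apply mul_le_mul _ _ (Real.exp_pos _).le (Real.exp_pos _).le
      · rw [← Real.log_le_iff_le_exp hN0]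
        exact h1
      · apply Real.exp_le_exp.2
        apply neg_le_neg
        apply mul_le_mul_of_nonneg_left hmge.le
        positivity
    refine lt_of_le_of_lt b2 ?_
    rw [Real.exp_lt_one_iff]
    have b3 : 1 / (q : ℝ) ^ 4 * N + -(2 * (1 / (q : ℝ)) ^ 2 * (N / q ^ 2 - 1)) =
        (1 / (q : ℝ) ^ 4) * (2 * q ^ 2 - N) := by
      field_simp
      ring
    rw [b3]
    apply mul_neg_of_pos_of_neg (by positivity)
    linarith
  · -- hubs
    have c1 : ((J * d * q : ℕ) : ℝ) ≤ (N : ℝ) / q ^ 2 - 1 := by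
      push_cast
      have hJy : (J : ℝ) * y ≤ 2 * q * N := by
        have c2 : (J : ℝ) * (q * (y / (2 * q))) ≤ J * (q * s) := by gcongr
        have c3 : (J : ℝ) * (q * (y / (2 * q))) = J * y / 2 := by field_simp
        rw [c3] at c2
        have c4 : (q - 3) * (N : ℝ) ≤ q * N := by nlinarith
        linarith
      have hdℓ : (d : ℝ) ≤ ℓ := by
        refine hdle.trans ?_
        nlinarith
      have c5 : (J : ℝ) * d * q ≤ J * (y / (4 * q ^ 4)) * q := by
        have : (d : ℝ) ≤ y / (4 * q ^ 4) := hdℓ.trans h3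
        gcongr
      have c6 : (J : ℝ) * (y / (4 * q ^ 4)) * q = (J * y) / (4 * q ^ 3) := by
        field_simp
      have c7 : (J * y) / (4 * q ^ 3) ≤ (2 * q * N) / (4 * q ^ 3) := by gcongr
      have c8 : (2 * q * N) / (4 * q ^ 3) = (N : ℝ) / q ^ 2 / 2 := by
        field_simp
        ring
      have c9 : 2 ≤ (N : ℝ) / q ^ 2 := by
        rw [le_div_iff₀ (by positivity)]
        linarith
      linarith
    have c10 : ((J * d * q : ℕ) : ℝ) < ((N / q / q : ℕ) : ℝ) := lt_of_le_of_lt c1 hmge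
    exact_mod_cast c10.le
  · have : J * (q * s) ≤ (q - 3) * N := Nat.div_mul_le_self _ _
    calc q * (J * s) = J * (q * s) := by ring
      _ ≤ _ := this
  · -- number of edges
    have d1 : (1 - η) * N ≤ J * s := by
      have f1 : (s : ℝ) ≤ N / q := by
        refine hsN.trans ?_
        have : (1 / 2 - 6 / (q : ℝ)) ^ d ≤ 1 := pow_le_one₀ hρ0.le hρ1
        have h0 : (0 : ℝ) ≤ N / q := by positivity
        nlinarith
      have f2 : (1 - 4 / (q : ℝ)) * N ≤ J * s := by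
        have f3 : (q : ℝ) * ((1 - 4 / (q : ℝ)) * N) ≤ q * (J * s) := by
          have f4 : (q : ℝ) * ((1 - 4 / (q : ℝ)) * N) = (q - 4) * N := by
            field_simp
          rw [f4]
          have f5 : (q : ℝ) * s ≤ N := by
            have := mul_le_mul_of_nonneg_left f1 hq0.le
            rwa [mul_div_cancel₀ _ hq0.ne'] at this
          nlinarith
        exact le_of_mul_le_mul_left f3 hq0
      have f6 : 4 / (q : ℝ) * N ≤ η * N := by gcongr
      linarith
    have d2 : (1 - 2 * η) * ℓ ≤ d := by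
      have : 1 ≤ η * ℓ := by
        rw [div_le_iff₀ hη0] at h4
        linarith
      linarith
    have d3 : ((J * d * s : ℕ) : ℝ) = (J * s) * d := by push_cast; ring
    rw [d3]
    have hη4 : η < 1 / 4 := by rw [hη]; linarith
    calc (1 - ε) * (N * ℓ) ≤ ((1 - η) * N) * ((1 - 2 * η) * ℓ) := by
          have : (1 - ε) ≤ (1 - η) * (1 - 2 * η) := by
            have : ε = 4 * η := by rw [hη]; ring
            nlinarith
          have h0 : 0 ≤ N * ℓ := by positivity
          nlinarith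
      _ ≤ (J * s) * d := by
          apply mul_le_mul d1 d2 _ (by positivity)
          apply mul_nonneg (by linarith) hℓ0.le

end Pool.Agent.H866R3.Edge
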