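import Pool.Agent.H866R3.Sample
import Pool.Agent.H866R3.Minimax
set_option autoImplicit false
open Finset
open scoped Classical

namespace Pool.Agent.H866R3.Edge

variable {V : Type*} [Fintype V]

omit [Fintype V] in
theorem one_copy (H : SimpleGraph V) (Z U : Finset V) (m d : ℕ) (ρ : ℝ) (hρ : 0 < ρ)
    (hm : 0 < m) (hZ : Z.card ≤ m) (hU : U.Nonempty)
    (h : ∀ x ∈ U, ρ * m + d ≤ ((Z.filter (fun z => H.Adj z x)).card : ℝ)) (i : ℕ) (hi : i ≤ d) :
    ∃ D ⊆ Z, D.card = i ∧ ∃ L ⊆ U, ρ ^ i * U.card ≤ (L.card : ℝ) ∧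
      ∀ z ∈ D, ∀ x ∈ L, H.Adj z x := by
  have hmR : (0 : ℝ) < m := by exact_mod_cast hm
  induction i with
  | zero =>
    exact ⟨∅, empty_subset _, rfl, U, Subset.rfl, by simp, by simp⟩
  | succ i ih =>
    obtain ⟨D, hDZ, hD, L, hLU, hL, hadj⟩ := ih (by omega)
    have hU0 : (0 : ℝ) < U.card := by exact_mod_cast hU.card_pos
    have hL0 : (0 : ℝ) < L.card := lt_of_lt_of_le (by positivity) hL
    have hdeg : ∀ x ∈ L, ρ * m ≤ (((Z \ D).filter (fun z => H.Adj z x)).card : ℝ) := by
      intro x hx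
      have h1 := h x (hLU hx)
      have h2 : (Z.filter (fun z => H.Adj z x)).card ≤
          ((Z \ D).filter (fun z => H.Adj z x)).card + D.card := by
        have : Z.filter (fun z => H.Adj z x) ⊆ (Z \ D).filter (fun z => H.Adj z x) ∪ D := by
          intro z hz
          simp only [mem_filter, mem_union, mem_sdiff] at hz ⊢
          tauto
        exact (card_le_card this).trans (card_union_le _ _)
      have h3 : ((Z.filter (fun z => H.Adj z x)).card : ℝ) ≤
          (((Z \ D).filter (fun z => H.Adj z x)).card : ℝ) + D.card := by exact_mod_cast h2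
      have h4 : (D.card : ℝ) ≤ d := by
        rw [hD]; exact_mod_cast (by omega : i ≤ d)
      linarith
    -- double counting
    have hdc : ∑ z ∈ Z \ D, ((L.filter (fun x => H.Adj z x)).card : ℝ) =
        ∑ x ∈ L, (((Z \ D).filter (fun z => H.Adj z x)).card : ℝ) := by
      simp only [card_eq_sum_ones, Nat.cast_sum, Nat.cast_one, sum_filter, Nat.cast_ite,
        Nat.cast_zero]
      rw [sum_comm]
    obtain ⟨z, hz, hz2⟩ : ∃ z ∈ Z \ D, ρ * L.card ≤ ((L.filter (fun x => H.Adj z x)).card : ℝ) := by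
      by_contra hcon
      push Not at hcon
      have hlow : (L.card : ℝ) * (ρ * m) ≤ ∑ x ∈ L,
          (((Z \ D).filter (fun z => H.Adj z x)).card : ℝ) := by
        rw [← nsmul_eq_mul]
        exact card_nsmul_le_sum _ _ _ hdeg
      have hup : ∑ z ∈ Z \ D, ((L.filter (fun x => H.Adj z x)).card : ℝ) <
          m * (ρ * L.card) := by
        have hne : (Z \ D).Nonempty := by
          rw [nonempty_iff_ne_empty]
          intro h0
          rw [← hdc, h0] at hlow
          simp only [sum_empty] at hlow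
          have : 0 < (L.card : ℝ) * (ρ * m) := by positivity
          linarith
        calc ∑ z ∈ Z \ D, ((L.filter (fun x => H.Adj z x)).card : ℝ)
            < ∑ z ∈ Z \ D, ρ * (L.card : ℝ) := sum_lt_sum_of_nonempty hne hcon
          _ = (Z \ D).card * (ρ * L.card) := by rw [sum_const, nsmul_eq_mul]
          _ ≤ m * (ρ * L.card) := by
            have : ((Z \ D).card : ℝ) ≤ m := by
              exact_mod_cast (card_le_card sdiff_subset).trans hZ
            gcongr
      rw [hdc] at hup
      nlinarith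
    rw [mem_sdiff] at hz
    refine ⟨insert z D, insert_subset hz.1 hDZ, by rw [card_insert_of_notMem hz.2, hD],
      L.filter (fun x => H.Adj z x), (filter_subset _ _).trans hLU, ?_, ?_⟩
    · calc ρ ^ (i + 1) * (U.card : ℝ) = ρ * (ρ ^ i * U.card) := by ring
        _ ≤ ρ * L.card := by gcongr
        _ ≤ _ := hz2
    · intro z' hz' x hx
      rw [mem_filter] at hx
      rcases mem_insert.1 hz' with rfl | h'
      · exact hx.2
      · exact hadj z' h' x hx.1

/-- Greedy embedding of `J` disjoint copies of `K_{d,s}`. -/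
theorem copies (H : SimpleGraph V) (m d s : ℕ) (ρ : ℝ) (hρ : 0 < ρ) (hm : 0 < m) (hs : 1 ≤ s)
    (J : ℕ) : ∀ (Z U : Finset V), Disjoint Z U → Z.card ≤ m →
    (∀ x ∈ U, ρ * m + J * d ≤ ((Z.filter (fun z => H.Adj z x)).card : ℝ)) →
    (s : ℝ) ≤ ρ ^ d * (U.card - J * s) →
    ∃ D L : ℕ → Finset V, (∀ j < J, D j ⊆ Z ∧ (D j).card = d ∧ L j ⊆ U ∧ (L j).card = s ∧
      ∀ z ∈ D j, ∀ x ∈ L j, H.Adj z x) ∧
      (∀ i < J, ∀ j < J, i ≠ j → Disjoint (D i) (D j) ∧ Disjoint (L i) (L j)) := by
  have hsR : (1 : ℝ) ≤ s := by exact_mod_cast hs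
  induction J with
  | zero =>
    intro Z U _ _ _ _
    exact ⟨fun _ => ∅, fun _ => ∅, fun j hj => absurd hj (Nat.not_lt_zero _),
      fun i hi => absurd hi (Nat.not_lt_zero _)⟩
  | succ J ih =>
    intro Z U hZU hZ hdeg hsize
    have hρd : (0 : ℝ) < ρ ^ d := by positivity
    have hU0 : (0 : ℝ) < U.card := by
      by_contra hcon
      push Not at hcon
      have : ρ ^ d * ((U.card : ℝ) - ((J + 1 : ℕ) : ℝ) * s) ≤ 0 := by
        apply mul_nonpos_of_nonneg_of_nonpos hρd.le
        have : (0 : ℝ) ≤ ((J + 1 : ℕ) : ℝ) * s := by positivity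
        linarith
      linarith
    have hUne : U.Nonempty := by
      rw [← card_pos]; exact_mod_cast hU0
    obtain ⟨D, hDZ, hD, L0, hLU, hL, hadj⟩ := one_copy H Z U m d ρ hρ hm hZ hUne (by
      intro x hx
      refine le_trans ?_ (hdeg x hx)
      have : (d : ℝ) ≤ ((J + 1 : ℕ) : ℝ) * d := by
        push_cast
        nlinarith [mul_nonneg (Nat.cast_nonneg (α := ℝ) J) (Nat.cast_nonneg (α := ℝ) d)]
      linarith) d le_rfl
    have hsL : s ≤ L0.card := by
      have : (s : ℝ) ≤ L0.card := by
        refine hsize.trans (le_trans ?_ hL)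
        apply mul_le_mul_of_nonneg_left _ hρd.le
        have : (0 : ℝ) ≤ ((J + 1 : ℕ) : ℝ) * s := by positivity
        linarith
      exact_mod_cast this
    obtain ⟨L, hLL, hLs⟩ := exists_subset_card_eq hsL
    have hLU' : L ⊆ U := hLL.trans hLU
    obtain ⟨D', L', h1, h2⟩ := ih (Z \ D) (U \ L)
      (disjoint_of_subset_left sdiff_subset (disjoint_of_subset_right sdiff_subset hZU))
      ((card_le_card sdiff_subset).trans hZ)
      (by
        intro x hx
        have h3 := hdeg x (mem_sdiff.1 hx).1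
        have h4 : (Z.filter (fun z => H.Adj z x)).card ≤
            ((Z \ D).filter (fun z => H.Adj z x)).card + D.card := by
          have : Z.filter (fun z => H.Adj z x) ⊆ (Z \ D).filter (fun z => H.Adj z x) ∪ D := by
            intro z hz
            simp only [mem_filter, mem_union, mem_sdiff] at hz ⊢
            tauto
          exact (card_le_card this).trans (card_union_le _ _)
        have h5 : ((Z.filter (fun z => H.Adj z x)).card : ℝ) ≤
            (((Z \ D).filter (fun z => H.Adj z x)).card : ℝ) + D.card := by exact_mod_cast h4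
        rw [hD] at h5
        push_cast at h3
        linarith)
      (by
        have h6 : ((U \ L).card : ℝ) = U.card - s := by
          rw [card_sdiff_of_subset hLU', hLs, Nat.cast_sub]
          rw [← hLs]; exact card_le_card hLU'
        rw [h6]
        push_cast at hsize
        refine hsize.trans (le_of_eq ?_)
        ring)
    refine ⟨fun j => Nat.casesOn j D D', fun j => Nat.casesOn j L L', ?_, ?_⟩
    · intro j hj
      cases j with
      | zero => exact ⟨hDZ, hD, hLU', hLs, fun z hz x hx => hadj z hz x (hLL hx)⟩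
      | succ j =>
        obtain ⟨a1, a2, a3, a4, a5⟩ := h1 j (by omega)
        exact ⟨a1.trans sdiff_subset, a2, a3.trans sdiff_subset, a4, a5⟩
    · have hd0 : ∀ j < J, Disjoint D (D' j) ∧ Disjoint L (L' j) := by
        intro j hj
        obtain ⟨a1, a2, a3, a4, a5⟩ := h1 j hj
        constructor
        · rw [disjoint_left]
          intro x hx hx'
          exact (mem_sdiff.1 (a1 hx')).2 hx
        · rw [disjoint_left]
          intro x hx hx'
          exact (mem_sdiff.1 (a3 hx')).2 hx
      intro i hi j hj hij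
      cases i with
      | zero =>
        cases j with
        | zero => exact absurd rfl hij
        | succ j => exact hd0 j (by omega)
      | succ i =>
        cases j with
        | zero =>
          obtain ⟨b1, b2⟩ := hd0 i (by omega)
          exact ⟨b1.symm, b2.symm⟩
        | succ j => exact h2 i (by omega) j (by omega) (by omega)

/-- `J` disjoint copies of `K_{d,s}`. -/
def KK (J d s : ℕ) : SimpleGraph (Fin J × (Fin d ⊕ Fin s)) where
  Adj p q := p.1 = q.1 ∧ p.2.isLeft ≠ q.2.isLeft
  symm := ⟨fun _ _ h => ⟨h.1.symm, h.2.symm⟩⟩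
  loopless := ⟨fun _ h => h.2 rfl⟩

theorem KK_edges (J d s : ℕ) : J * d * s ≤ (KK J d s).edgeSet.ncard := by
  have h1 : Nat.card (Fin J × Fin d × Fin s) ≤ Nat.card (KK J d s).edgeSet := by
    refine Nat.card_le_card_of_injective (fun p => ⟨s((p.1, Sum.inl p.2.1), (p.1, Sum.inr p.2.2)),
      ⟨rfl, by simp⟩⟩) ?_
    rintro ⟨j, a, b⟩ ⟨j', a', b'⟩ h
    have h' := congrArg Subtype.val h
    simp only [Sym2.eq_iff, Prod.mk.injEq] at h'
    rcases h' with ⟨⟨h1, h2⟩, h3, h4⟩ | ⟨⟨h1, h2⟩, _⟩
    · rw [h1, Sum.inl.inj h2, Sum.inr.inj h4]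
    · exact absurd h2 (by simp)
  rw [Nat.card_coe_set_eq] at h1
  simpa [mul_assoc] using h1

omit [Fintype V] in
theorem KK_contained (H : SimpleGraph V) (J d s : ℕ) (Z U : Finset V) (hZU : Disjoint Z U)
    (D L : ℕ → Finset V) (h1 : ∀ j < J, D j ⊆ Z ∧ (D j).card = d ∧ L j ⊆ U ∧ (L j).card = s ∧
      ∀ z ∈ D j, ∀ x ∈ L j, H.Adj z x)
    (h2 : ∀ i < J, ∀ j < J, i ≠ j → Disjoint (D i) (D j) ∧ Disjoint (L i) (L j)) :
    (KK J d s).IsContained H := by
  have hD : ∀ j : Fin J, Nonempty (Fin d ≃ D j) := fun j =>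
    ⟨(Fintype.equivFinOfCardEq (by simpa using (h1 j j.2).2.1)).symm⟩
  have hL : ∀ j : Fin J, Nonempty (Fin s ≃ L j) := fun j =>
    ⟨(Fintype.equivFinOfCardEq (by simpa using (h1 j j.2).2.2.2.1)).symm⟩
  choose e _ using fun j => exists_true_iff_nonempty.2 (hD j)
  choose g _ using fun j => exists_true_iff_nonempty.2 (hL j)
  have hDL : ∀ i j : Fin J, ∀ x, x ∈ D i → x ∈ L j → False := by
    intro i j x hx hx'
    exact disjoint_left.1 hZU ((h1 i i.2).1 hx) ((h1 j j.2).2.2.1 hx')
  let φ : Fin J × (Fin d ⊕ Fin s) → V := fun p => Sum.elim (fun a => (e p.1 a : V))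
    (fun b => (g p.1 b : V)) p.2
  refine ⟨⟨⟨φ, ?_⟩, ?_⟩⟩
  · rintro ⟨j, a | a⟩ ⟨j', b | b⟩ ⟨hj, hne⟩
    · simp at hne
    · simp only at hj
      subst hj
      exact (h1 j j.2).2.2.2.2 _ (e j a).2 _ (g j b).2
    · simp only at hj
      subst hj
      exact ((h1 j j.2).2.2.2.2 _ (e j b).2 _ (g j a).2).symm
    · simp at hne
  · rintro ⟨j, a | a⟩ ⟨j', b | b⟩ h
    · have h' : (e j a : V) = e j' b := h
      by_cases hj : j = j'
      · subst hj
        rw [(e j).injective (Subtype.ext h')]
      · exfalso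
        have := (h2 j j.2 j' j'.2 (fun h => hj (Fin.ext h))).1
        exact disjoint_left.1 this (e j a).2 (h' ▸ (e j' b).2)
    · exfalso
      have h' : (e j a : V) = g j' b := h
      exact hDL j j' _ (e j a).2 (h' ▸ (g j' b).2)
    · exfalso
      have h' : (g j a : V) = e j' b := h
      exact hDL j' j _ (e j' b).2 (h' ▸ (g j a).2)
    · have h' : (g j a : V) = g j' b := h
      by_cases hj : j = j'
      · subst hj
        rw [(g j).injective (Subtype.ext h')]
      · exfalso
        have := (h2 j j.2 j' j'.2 (fun h => hj (Fin.ext h))).2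
        exact disjoint_left.1 this (g j a).2 (h' ▸ (g j' b).2)

end Pool.Agent.H866R3.Edge
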