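import Mathlib
set_option autoImplicit false
open Finset SimpleGraph

namespace Pool.Agent.H866R3.Edge

/-- Colourings in which the copy of `G` given by `φ` is monochromatic with colour `b`. -/
def evt {k N : ℕ} (G : SimpleGraph (Fin k)) (φ : Fin k ↪ Fin N) (b : Bool) :
    Set (Sym2 (Fin N) → Bool) :=
  {c | ∀ e ∈ G.edgeSet, c (Sym2.map φ e) = b}

theorem card_evt {k N : ℕ} (G : SimpleGraph (Fin k)) (φ : Fin k ↪ Fin N) (b : Bool) :
    (evt G φ b).ncard * 2 ^ G.edgeSet.ncard ≤ 2 ^ Fintype.card (Sym2 (Fin N)) := by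
  classical
  set S : Set (Sym2 (Fin N)) := Sym2.map φ '' G.edgeSet with hS
  have hScard : S.ncard = G.edgeSet.ncard :=
    Set.ncard_image_of_injective _ (Sym2.map.injective φ.injective)
  have h1 : (evt G φ b).ncard ≤ Nat.card ({e // e ∉ S} → Bool) := by
    rw [← Nat.card_coe_set_eq]
    refine Nat.card_le_card_of_injective (fun c => fun e => c.1 e.1) ?_
    rintro ⟨c, hc⟩ ⟨c', hc'⟩ h
    apply Subtype.ext
    funext e
    by_cases he : e ∈ S
    · obtain ⟨e', he', rfl⟩ := he
      show c _ = c' _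
      rw [hc e' he', hc' e' he']
    · exact congrFun h ⟨e, he⟩
  have h2 : Nat.card ({e // e ∉ S} → Bool) = 2 ^ (Fintype.card (Sym2 (Fin N)) - S.ncard) := by
    rw [Nat.card_fun]
    have e1 : Nat.card Bool = 2 := by simp
    have e2 : Nat.card {e // e ∉ S} = Fintype.card (Sym2 (Fin N)) - S.ncard := by
      have := Set.ncard_compl S
      rw [Nat.card_eq_fintype_card] at this
      rw [← this, ← Nat.card_coe_set_eq]
      rfl
    rw [e1, e2]
  have h3 : S.ncard ≤ Fintype.card (Sym2 (Fin N)) := by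
    rw [← Nat.card_eq_fintype_card]
    exact Set.ncard_le_card S
  rw [h2] at h1
  calc (evt G φ b).ncard * 2 ^ G.edgeSet.ncard
      ≤ 2 ^ (Fintype.card (Sym2 (Fin N)) - S.ncard) * 2 ^ S.ncard := by
        rw [hScard] at *
        gcongr
    _ = _ := by rw [← pow_add, Nat.sub_add_cancel h3]

/-- Counting bound. -/
theorem lower_comb {k N : ℕ} (G : SimpleGraph (Fin k)) (hN : 1 ≤ N)
    (h : ∀ H : SimpleGraph (Fin N), G.IsContained H ∨ G.IsContained Hᶜ) :
    2 ^ G.edgeSet.ncard ≤ 2 * N ^ N := by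
  classical
  have hkN : k ≤ N := by
    rcases h ⊥ with h0 | h0
    · obtain ⟨f⟩ := h0
      have := Fintype.card_le_of_injective _ f.injective
      simpa using this
    · obtain ⟨f⟩ := h0
      have := Fintype.card_le_of_injective _ f.injective
      simpa using this
  have hcov : (Set.univ : Set (Sym2 (Fin N) → Bool)) ⊆
      ⋃ p ∈ (Finset.univ : Finset (Bool × (Fin k ↪ Fin N))), evt G p.2 p.1 := by
    intro c _
    simp only [Finset.mem_univ, Set.iUnion_true, Set.mem_iUnion]
    obtain ⟨H, hH⟩ : ∃ H : SimpleGraph (Fin N), ∀ x y, H.Adj x y ↔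
        x ≠ y ∧ (c s(x, y) = true ∨ c s(y, x) = true) :=
      ⟨SimpleGraph.fromRel (fun x y => c s(x, y) = true), fun x y => SimpleGraph.fromRel_adj _ _ _⟩
    rcases h H with h0 | h0
    · obtain ⟨f⟩ := h0
      refine ⟨(true, ⟨f, f.injective⟩), ?_⟩
      intro e he
      induction e using Sym2.ind with
      | _ u v =>
        have h1 := f.toHom.map_adj he
        rw [hH] at h1
        rcases h1.2 with h2 | h2
        · exact h2
        · rw [Sym2.eq_swap] at h2
          exact h2
    · obtain ⟨f⟩ := h0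
      refine ⟨(false, ⟨f, f.injective⟩), ?_⟩
      intro e he
      induction e using Sym2.ind with
      | _ u v =>
        have h1 := f.toHom.map_adj he
        rw [SimpleGraph.compl_adj, hH] at h1
        have h2 : ¬ (c s(f u, f v) = true) := fun h => h1.2 ⟨h1.1, Or.inl h⟩
        have h3 : c s(f u, f v) = false := by simpa using h2
        exact h3
  have h1 : (Set.univ : Set (Sym2 (Fin N) → Bool)).ncard ≤
      ∑ p : Bool × (Fin k ↪ Fin N), (evt G p.2 p.1).ncard :=
    (Set.ncard_le_ncard hcov (Set.toFinite _)).trans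
      (Finset.set_ncard_biUnion_le _ _)
  have h2 : (Set.univ : Set (Sym2 (Fin N) → Bool)).ncard = 2 ^ Fintype.card (Sym2 (Fin N)) := by
    rw [Set.ncard_univ, Nat.card_eq_fintype_card]
    simp
  rw [h2] at h1
  have h3 : 2 ^ Fintype.card (Sym2 (Fin N)) * 2 ^ G.edgeSet.ncard ≤
      (2 * N ^ N) * 2 ^ Fintype.card (Sym2 (Fin N)) := by
    calc 2 ^ Fintype.card (Sym2 (Fin N)) * 2 ^ G.edgeSet.ncard
        ≤ (∑ p : Bool × (Fin k ↪ Fin N), (evt G p.2 p.1).ncard) * 2 ^ G.edgeSet.ncard :=
          Nat.mul_le_mul_right _ h1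
      _ = ∑ p : Bool × (Fin k ↪ Fin N), (evt G p.2 p.1).ncard * 2 ^ G.edgeSet.ncard :=
          Finset.sum_mul _ _ _
      _ ≤ ∑ p : Bool × (Fin k ↪ Fin N), 2 ^ Fintype.card (Sym2 (Fin N)) :=
          Finset.sum_le_sum fun p _ => card_evt G p.2 p.1
      _ = (2 * N.descFactorial k) * 2 ^ Fintype.card (Sym2 (Fin N)) := by
          rw [Finset.sum_const, Finset.card_univ, Fintype.card_prod, Fintype.card_embedding_eq]
          simp
      _ ≤ (2 * N ^ N) * 2 ^ Fintype.card (Sym2 (Fin N)) := by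
          apply Nat.mul_le_mul_right
          apply Nat.mul_le_mul_left
          exact (Nat.descFactorial_le_pow N k).trans (Nat.pow_le_pow_right hN hkN)
  have h4 : 0 < 2 ^ Fintype.card (Sym2 (Fin N)) := by positivity
  rw [mul_comm] at h3
  exact Nat.le_of_mul_le_mul_right h3 h4

end Pool.Agent.H866R3.Edge
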