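import Pool.Agent.H866R3.EdgeGreedy
set_option autoImplicit false
open Finset
open scoped Classical

namespace Pool.Agent.H866R3.Edge

/-- Numerical conditions. -/
structure Cond (q N d s J : ℕ) : Prop where
  hq : 13 ≤ q
  hN : q ^ 2 ≤ N
  hexp : (N : ℝ) * Real.exp (-(2 * (1 / (q : ℝ)) ^ 2 * ((N / q / q : ℕ) : ℝ))) < 1
  hJd : J * d * q ≤ N / q / q
  hJs : q * (J * s) ≤ (q - 3) * N
  hs1 : 1 ≤ s
  hs : (s : ℝ) ≤ (1 / 2 - 6 / (q : ℝ)) ^ d * (N / q)

theorem embed_of_spread {N : ℕ} (H : SimpleGraph (Fin N)) (q d s J : ℕ) (hc : Cond q N d s J)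
    (μ : Fin N → ℝ) (hμ : μ ∈ Spread (univ : Finset (Fin N)) (N / q)) (T : Finset (Fin N))
    (hT : N < T.card + N / q)
    (hα : ∀ x ∈ T, 1 / 2 - 1 / ((N / q : ℕ) : ℝ) ≤
      ∑ z ∈ univ.filter (fun z => H.Adj z x), μ z) : (KK J d s).IsContained H := by
  obtain ⟨hq, hN, hexp, hJd, hJs, hs1, hs⟩ := hc
  set K := N / q with hK
  set m := K / q with hm
  have hqR : (13 : ℝ) ≤ q := by exact_mod_cast hq
  have hq0 : (0 : ℝ) < q := by linarith
  have hKq : q ≤ K := by
    rw [hK, Nat.le_div_iff_mul_le (by omega)]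
    nlinarith
  have hKqR : (q : ℝ) ≤ K := by exact_mod_cast hKq
  have hm1 : 1 ≤ m := by
    rw [hm, Nat.le_div_iff_mul_le (by omega)]
    omega
  have hmR : (1 : ℝ) ≤ m := by exact_mod_cast hm1
  have hK0 : (0 : ℝ) < K := by linarith
  have hKinv : 1 / (K : ℝ) ≤ 1 / q := one_div_le_one_div_of_le hq0 hKqR
  have hqinv : 1 / (q : ℝ) ≤ 1 / 13 := one_div_le_one_div_of_le (by norm_num) hqR
  have hqinv0 : 0 < 1 / (q : ℝ) := by positivity
  have hmK : m * q ≤ K := Nat.div_mul_le_self K q
  have hmKR : (m : ℝ) * q ≤ K := by exact_mod_cast hmK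
  have hKN : K * q ≤ N := Nat.div_mul_le_self N q
  have hKNR : (K : ℝ) * q ≤ N := by exact_mod_cast hKN
  obtain ⟨Z, hZ, hZ2⟩ := sample H μ hμ.1 hμ.2.2.2 (1 / K) hμ.2.1 (by positivity) T
    (1 / 2 - 1 / (K : ℝ)) (1 / q) m (by positivity) (by linarith) (by linarith)
    (by have : 0 < 1 / (K : ℝ) := by positivity
        linarith) hα
    (by
      rw [mul_one_div, div_le_div_iff₀ hK0 hq0]
      linarith)
    (by
      refine lt_of_le_of_lt ?_ hexp
      have : (T.card : ℝ) ≤ N := by
        have := card_le_univ T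
        rw [Fintype.card_fin] at this
        exact_mod_cast this
      gcongr)
  have h6 : 6 / (q : ℝ) = 6 * (1 / q) := by ring
  have hρ : 0 < 1 / 2 - 6 / (q : ℝ) := by rw [h6]; linarith
  have hTR : (N : ℝ) ≤ T.card + K := by exact_mod_cast hT.le
  have hmleK : (m : ℝ) ≤ K := by nlinarith
  have hJdR : (J : ℝ) * d * q ≤ m := by exact_mod_cast hJd
  have hJsR : (q : ℝ) * (J * s) ≤ (q - 3) * N := by
    have : ((q * (J * s) : ℕ) : ℝ) ≤ (((q - 3) * N : ℕ) : ℝ) := by exact_mod_cast hJs
    push_cast [Nat.cast_sub (by omega : 3 ≤ q)] at this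
    exact this
  obtain ⟨D, L, h1, h2⟩ := copies H m d s (1 / 2 - 6 / (q : ℝ)) hρ (by omega) hs1 J Z (T \ Z)
    disjoint_sdiff hZ.le
    (by
      intro x hx
      refine le_trans ?_ (hZ2 x (mem_sdiff.1 hx).1)
      have : (J : ℝ) * d ≤ 1 / q * m := by
        rw [one_div, ← div_eq_inv_mul, le_div_iff₀ hq0]
        exact hJdR
      rw [h6]
      nlinarith)
    (by
      refine hs.trans ?_
      apply mul_le_mul_of_nonneg_left _ (pow_nonneg hρ.le _)
      have h3 : T.card ≤ (T \ Z).card + Z.card := by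
        have : T ⊆ (T \ Z) ∪ Z := by
          intro x hx
          simp only [mem_union, mem_sdiff]
          tauto
        exact (card_le_card this).trans (card_union_le _ _)
      have h4 : (T.card : ℝ) ≤ (T \ Z).card + m := by
        rw [hZ] at h3
        exact_mod_cast h3
      have h5 : (N : ℝ) - 2 * K ≤ ((T \ Z).card : ℝ) := by linarith
      have h7 : (N : ℝ) / q ≤ N - 2 * K - J * s := by
        rw [div_le_iff₀ hq0]
        nlinarith
      linarith)
  exact KK_contained H J d s Z (T \ Z) disjoint_sdiff D L h1 h2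

theorem upper_comb (q N d s J : ℕ) (hc : Cond q N d s J) (H : SimpleGraph (Fin N)) :
    (KK J d s).IsContained H ∨ (KK J d s).IsContained Hᶜ := by
  have hq := hc.hq
  have hN := hc.hN
  have hKq : q ≤ N / q := by
    rw [Nat.le_div_iff_mul_le (by omega)]
    nlinarith
  have hK1 : 1 ≤ N / q := by omega
  have hKN : N / q ≤ N := Nat.div_le_self _ _
  have hcardV : (univ : Finset (Fin N)).card = N := by simp
  rcases dichotomy (V := Fin N) (fun x y => if H.Adj y x then (1 : ℝ) else 0) univ univ (N / q)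
    (N / q) hK1 hK1 (by rw [hcardV]; exact hKN) (by rw [hcardV]; exact hKN) (1 / 2) with
    ⟨μ, hμ, h1⟩ | ⟨ν, hν, h1⟩
  · left
    refine embed_of_spread H q d s J hc μ hμ
      (univ.filter (fun x => ¬ (∑ y, μ y * (if H.Adj y x then (1 : ℝ) else 0) < 1 / 2))) ?_ ?_
    · have := card_filter_add_card_filter_not (s := (univ : Finset (Fin N)))
        (fun x => ∑ y, μ y * (if H.Adj y x then (1 : ℝ) else 0) < 1 / 2)
      rw [hcardV] at this
      omega
    · intro x hx
      have h2 := (mem_filter.1 hx).2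
      push Not at h2
      have h3 : ∑ y, μ y * (if H.Adj y x then (1 : ℝ) else 0) =
          ∑ z ∈ univ.filter (fun z => H.Adj z x), μ z := by
        rw [sum_filter]
        apply sum_congr rfl
        intro y _
        split_ifs <;> simp
      rw [h3] at h2
      have : 0 ≤ 1 / ((N / q : ℕ) : ℝ) := by positivity
      linarith
  · right
    refine embed_of_spread Hᶜ q d s J hc ν hν
      (univ.filter (fun y => ¬ (1 / 2 ≤ ∑ x, ν x * (if H.Adj y x then (1 : ℝ) else 0)))) ?_ ?_
    · have := card_filter_add_card_filter_not (s := (univ : Finset (Fin N)))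
        (fun y => 1 / 2 ≤ ∑ x, ν x * (if H.Adj y x then (1 : ℝ) else 0))
      rw [hcardV] at this
      omega
    · intro y hy
      have h2 := (mem_filter.1 hy).2
      push Not at h2
      have h3 : ∑ x, ν x * (if H.Adj y x then (1 : ℝ) else 0) +
          (∑ z ∈ univ.filter (fun z => z ≠ y ∧ ¬ H.Adj z y), ν z + ν y) = 1 := by
        have e1 : ν y = ∑ z, (if z = y then ν z else 0) := by
          rw [sum_ite_eq' univ y ν]
          simp
        have e2 : ∑ x, ν x * (if H.Adj y x then (1 : ℝ) else 0) +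
          (∑ z ∈ univ.filter (fun z => z ≠ y ∧ ¬ H.Adj z y), ν z +
            ∑ z, (if z = y then ν z else 0)) = ∑ z, ν z := by
          rw [sum_filter, ← sum_add_distrib, ← sum_add_distrib]
          apply sum_congr rfl
          intro z _
          by_cases hzy : z = y
          · subst hzy
            simp
          · have : H.Adj y z ↔ H.Adj z y := ⟨fun h => h.symm, fun h => h.symm⟩
            by_cases ha : H.Adj z y
            · simp [hzy, this, ha]
            · simp [hzy, this, ha]
        rw [← e1] at e2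
        exact e2.trans hν.2.2.2
      have h4 := hν.2.1 y
      have h5 : 1 / 2 - 1 / ((N / q : ℕ) : ℝ) ≤
          ∑ z ∈ univ.filter (fun z => z ≠ y ∧ ¬ H.Adj z y), ν z := by linarith
      convert h5 using 2
      ext z
      simp only [mem_filter, mem_univ, true_and, SimpleGraph.compl_adj]

end Pool.Agent.H866R3.Edge
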