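import Mathlib
set_option autoImplicit false
open Finset
open scoped Classical

namespace Pool.Agent.H866R3

/-- Vertex type of a star forest with prescribed numbers of leaves. -/
def SF : List ℕ → Type
  | [] => Empty
  | s :: l => Option (Fin s) ⊕ SF l

noncomputable instance instFintypeSF : (l : List ℕ) → Fintype (SF l)
  | [] => inferInstanceAs (Fintype Empty)
  | s :: l => by
    haveI := instFintypeSF l
    exact inferInstanceAs (Fintype (Option (Fin s) ⊕ SF l))

theorem card_SF : ∀ l : List ℕ, Fintype.card (SF l) = (l.map (· + 1)).sum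
  | [] => by
    show Fintype.card Empty = 0
    simp
  | s :: l => by
    have h := card_SF l
    show Fintype.card (Option (Fin s) ⊕ SF l) = _
    rw [Fintype.card_sum, h]
    simp

/-- Adjacency of the star forest. -/
def SFadj : (l : List ℕ) → SF l → SF l → Prop
  | [], _, _ => False
  | _ :: _, Sum.inl none, Sum.inl (some _) => True
  | _ :: _, Sum.inl (some _), Sum.inl none => True
  | _ :: l, Sum.inr a, Sum.inr b => SFadj l a b
  | _ :: _, _, _ => False

theorem SFadj_symm : ∀ (l : List ℕ) (a b : SF l), SFadj l a b → SFadj l b a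
  | [], _, _, h => h
  | _ :: _, Sum.inl none, Sum.inl (some _), _ => trivial
  | _ :: _, Sum.inl (some _), Sum.inl none, _ => trivial
  | _ :: l, Sum.inr a, Sum.inr b, h => SFadj_symm l a b h
  | _ :: _, Sum.inl none, Sum.inl none, h => h
  | _ :: _, Sum.inl (some _), Sum.inl (some _), h => h
  | _ :: _, Sum.inl (some _), Sum.inr _, h => h.elim
  | _ :: _, Sum.inl none, Sum.inr _, h => h.elim
  | _ :: _, Sum.inr _, Sum.inl (some _), h => h.elim
  | _ :: _, Sum.inr _, Sum.inl none, h => h.elim

theorem SFadj_irrefl : ∀ (l : List ℕ) (a : SF l), ¬ SFadj l a a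
  | [], _, h => h
  | _ :: _, Sum.inl none, h => h
  | _ :: _, Sum.inl (some _), h => h
  | _ :: l, Sum.inr a, h => SFadj_irrefl l a h

/-- The star forest. -/
def starForest (l : List ℕ) : SimpleGraph (SF l) where
  Adj := SFadj l
  symm := ⟨fun a b h => SFadj_symm l a b h⟩
  loopless := ⟨fun a h => SFadj_irrefl l a h⟩

theorem SF_exists_adj : ∀ (l : List ℕ), (∀ s ∈ l, 1 ≤ s) → ∀ a : SF l, ∃ b, SFadj l a b
  | [], _, a => a.elim
  | s :: l, h, Sum.inl none =>
    ⟨Sum.inl (some ⟨0, h s (by simp)⟩), trivial⟩
  | s :: l, h, Sum.inl (some i) => ⟨Sum.inl none, trivial⟩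
  | s :: l, h, Sum.inr a => by
    obtain ⟨b, hb⟩ := SF_exists_adj l (fun t ht => h t (by simp [ht])) a
    exact ⟨Sum.inr b, hb⟩

variable {V : Type*}

/-- One finds, inside the vertex set, disjoint stars with the prescribed numbers of leaves. -/
def Emb (H : SimpleGraph V) : Finset V → List ℕ → Prop
  | _, [] => True
  | A, s :: l => ∃ z ∈ A, ∃ L ⊆ A.erase z, L.card = s ∧ (∀ x ∈ L, H.Adj z x) ∧
      Emb H (A.erase z \ L) l

theorem Emb.exists_map (H : SimpleGraph V) : ∀ (l : List ℕ) (A : Finset V), Emb H A l →
    ∃ φ : SF l → V, Function.Injective φ ∧ (∀ a b, SFadj l a b → H.Adj (φ a) (φ b)) ∧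
      ∀ a, φ a ∈ A
  | [], A, _ => ⟨fun a => a.elim, fun a => a.elim, fun a => a.elim, fun a => a.elim⟩
  | s :: l, A, ⟨z, hz, L, hL, hcard, hadj, hrest⟩ => by
    obtain ⟨φ, hφ, hφ2, hφ3⟩ := Emb.exists_map H l _ hrest
    have e : Fin s ≃ L := (Fintype.equivFinOfCardEq (by simpa using hcard)).symm
    refine ⟨fun a => match a with
      | Sum.inl none => z
      | Sum.inl (some i) => (e i : V)
      | Sum.inr b => φ b, ?_, ?_, ?_⟩
    · have h1 : ∀ i, (e i : V) ≠ z := fun i h => by
        have := hL (e i).2
        rw [h] at this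
        simp at this
      have h2 : ∀ b, φ b ≠ z := fun b h => by
        have := hφ3 b
        rw [h] at this
        simp at this
      have h3 : ∀ i b, (e i : V) ≠ φ b := fun i b h => by
        have := hφ3 b
        rw [← h] at this
        simp at this
      rintro ((_ | i) | b) ((_ | j) | c) h
      · rfl
      · exact absurd h.symm (h1 _)
      · exact absurd h.symm (h2 _)
      · exact absurd h (h1 _)
      · have := e.injective (Subtype.ext h)
        rw [this]
      · exact absurd h (h3 _ _)
      · exact absurd h (h2 _)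
      · exact absurd h.symm (h3 _ _)
      · exact congrArg Sum.inr (hφ h)
    · rintro ((_ | i) | b) ((_ | j) | c) h
      · exact h.elim
      · exact hadj _ (e _).2
      · exact h.elim
      · exact (hadj _ (e _).2).symm
      · exact h.elim
      · exact h.elim
      · exact h.elim
      · exact h.elim
      · exact hφ2 _ _ h
    · rintro ((_ | i) | i)
      · exact hz
      · exact (mem_erase.1 (hL (e _).2)).2
      · have := hφ3 i
        simp only [mem_sdiff, mem_erase] at this
        exact this.1.2

end Pool.Agent.H866R3
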