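import Pool.Agent.H866R3.Sizes
set_option autoImplicit false
open Finset
open scoped Classical

namespace Pool.Agent.H866R3

variable {V : Type*} [Fintype V]

theorem sum_of_map_succ : ∀ l : List ℕ, (l.map (· + 1)).sum = l.sum + l.length
  | [] => by simp
  | s :: l => by
    have := sum_of_map_succ l
    simp only [List.map_cons, List.sum_cons, List.length_cons, this]
    omega

theorem set1 (Z B Zf Bad Zs' R' : Finset V) :
    Zf ⊆ (univ \ ((Z \ Zf) \ Zs')) \ ((univ \ (Z ∪ B ∪ Zf ∪ Bad)) \ R') := by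
  intro x hx
  simp only [mem_sdiff, mem_union, mem_univ, true_and]
  tauto

theorem set2 (Z B Zf Bad Zs' R' : Finset V) :
    ((Z ∪ B) \ (Bad ∪ Zf)) \ ((Z \ Zf) \ Zs') ⊆
      (univ \ ((Z \ Zf) \ Zs')) \ ((univ \ (Z ∪ B ∪ Zf ∪ Bad)) \ R') := by
  intro x hx
  simp only [mem_sdiff, mem_union, mem_univ, true_and] at hx ⊢
  tauto

theorem set3 (Z B Zf Bad Zs' R' : Finset V) :
    (univ \ ((Z \ Zf) \ Zs')) \ ((univ \ (Z ∪ B ∪ Zf ∪ Bad)) \ R') ⊆
      ((Z ∪ B) \ (Bad ∪ Zf)) \ ((Z \ Zf) \ Zs') ∪ Zf ∪ Bad ∪ R' := by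
  intro x hx
  simp only [mem_sdiff, mem_union, mem_univ, true_and] at hx ⊢
  tauto

theorem set4 (P Q : Finset V) : (univ : Finset V) ⊆ (univ \ P) \ Q ∪ P ∪ Q := by
  intro x _
  simp only [mem_sdiff, mem_union, mem_univ, true_and]
  tauto

theorem set5 (Z B Zf Bad : Finset V) : Disjoint (Z \ Zf) (univ \ (Z ∪ B ∪ Zf ∪ Bad)) := by
  rw [disjoint_left]
  intro x hx hxR
  simp only [mem_sdiff, mem_union, mem_univ, true_and] at hx hxR
  tauto

theorem set6 (Z B Zf Bad P : Finset V) : Disjoint Zf (((Z ∪ B) \ (Bad ∪ Zf)) \ P) := by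
  rw [disjoint_left]
  intro x hx hxR
  simp only [mem_sdiff, mem_union] at hxR
  tauto

theorem embed (H : SimpleGraph V) (q T0 D r1 g k1 k2 w mf b t : ℕ) (μ : V → ℝ) (κ γ m0 γ2 m2 ρ2 : ℝ)
    (Z B Bad Zf : Finset V) (hq : 1 ≤ q) (hT : 8 ≤ T0) (hD : 3 * T0 ≤ D) (hDw : w ≤ D)
    (hr1 : 2 ≤ r1) (hg : 1 ≤ g) (hgw : 3 * g ≤ w)
    (hN : Fintype.card V = r1 + k2 * (g + 1) + t)
    (hlen : (mainList q T0 r1).length ≤ k1)
    (hμ : ∀ z, 0 ≤ μ z) (hκ : ∀ z, μ z ≤ κ) (hκ0 : 0 ≤ κ) (hm0 : 0 < m0) (hγ : 0 ≤ γ)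
    (hρ : (4 * q - 1 : ℝ) / (8 * q) ≤ 1 - γ / m0)
    (hnon : ∀ x, x ∉ Z → x ∉ B → x ∉ Bad → ∑ z ∈ (Z \ Zf).filter (fun z => ¬ H.Adj z x), μ z ≤ γ)
    (hmass : m0 + (k1 + k2 : ℕ) * κ ≤ ∑ z ∈ Z \ Zf, μ z)
    (hmf : Zf.card ≤ mf) (hb : Bad.card ≤ b)
    (hnon2 : ∀ x, x ∈ Z ∨ x ∈ B → x ∉ Bad → x ∉ Zf →
      ((Zf.filter (fun z => ¬ H.Adj z x)).card : ℝ) ≤ γ2)
    (hm2 : 0 < m2) (hγ2 : 0 ≤ γ2) (hρ2 : ρ2 ≤ 1 - γ2 / m2) (hρ20 : 0 ≤ ρ2)
    (hmass2 : m2 + k2 ≤ Zf.card) (hgρ : (g : ℝ) ≤ ρ2 * w)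
    (hbig : Z.card + B.card + mf + b + D ≤ k2 * (g + 1) + t)
    (ht : mf + b + 2 * w + g ≤ t) :
    Emb H univ (mainList q T0 r1 ++ List.replicate k2 g) := by
  obtain ⟨hsum, hpos⟩ := mainList_sum q T0 hq hT r1 hr1
  rw [sum_of_map_succ] at hsum
  set lm := mainList q T0 r1 with hlm
  set R : Finset V := univ \ (Z ∪ B ∪ Zf ∪ Bad) with hR
  have hcardR : r1 + D ≤ R.card := by
    have h1 : (Z ∪ B ∪ Zf ∪ Bad).card ≤ Z.card + B.card + Zf.card + Bad.card := by
      refine (card_union_le _ _).trans ?_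
      gcongr
      refine (card_union_le _ _).trans ?_
      gcongr
      exact card_union_le _ _
    have h2 : R.card + (Z ∪ B ∪ Zf ∪ Bad).card = Fintype.card V := by
      rw [hR, card_sdiff_of_subset (subset_univ _), card_univ]
      have := card_le_univ (Z ∪ B ∪ Zf ∪ Bad)
      omega
    omega
  set X := R.card - lm.sum with hX
  have hsumle : lm.sum ≤ r1 := by omega
  have hXw : w ≤ X := by omega
  set j1 := min k2 ((X - w) / g) with hj1
  have hj1k : j1 ≤ k2 := min_le_left _ _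
  have hj1g : j1 * g ≤ X - w := by
    calc j1 * g ≤ (X - w) / g * g := Nat.mul_le_mul_right _ (min_le_right _ _)
      _ ≤ X - w := Nat.div_mul_le_self _ _
  have hj1' : j1 < k2 → X - w < (j1 + 1) * g := by
    intro h
    have h1 : j1 = (X - w) / g := by omega
    rw [h1]
    have h2 := Nat.div_add_mod (X - w) g
    have h3 := Nat.mod_lt (X - w) (by omega : 0 < g)
    rw [add_mul, one_mul, mul_comm]
    omega
  have hq' : (1 : ℝ) ≤ q := by exact_mod_cast hq
  have h38 : (3 / 8 : ℝ) ≤ (4 * q - 1 : ℝ) / (8 * q) := by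
    rw [div_le_div_iff₀ (by norm_num) (by positivity)]
    nlinarith
  have hgw' : (3 * g : ℝ) ≤ w := by exact_mod_cast hgw
  have hg0 : (0 : ℝ) ≤ g := Nat.cast_nonneg _
  obtain ⟨k3, hk3⟩ : ∃ k3, k2 = j1 + k3 := ⟨k2 - j1, by omega⟩
  have hk32 : k3 ≤ k2 := by rw [hk3]; exact Nat.le_add_left _ _
  rw [hk3, List.replicate_add, ← List.append_assoc]
  apply phase H μ hμ κ γ m0 _ hκ hκ0 hm0 hρ hγ _ _ univ (Z \ Zf) R (subset_univ _) (subset_univ _)
  · exact set5 Z B Zf Bad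
  · intro x hx
    rw [hR] at hx
    simp only [mem_sdiff, mem_union, mem_univ, true_and, not_or] at hx
    exact hnon x hx.1.1.1 hx.1.1.2 hx.2
  · refine le_trans ?_ hmass
    have h1 : (lm ++ List.replicate j1 g).length ≤ k1 + k2 := by
      rw [List.length_append, List.length_replicate]
      omega
    have h2 : (((lm ++ List.replicate j1 g).length : ℕ) : ℝ) ≤ (k1 + k2 : ℕ) := by exact_mod_cast h1
    have := mul_le_mul_of_nonneg_right h2 hκ0
    linarith
  · apply OK_append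
    · exact mainList_ok q T0 D hq hD r1 R.card hcardR
    · apply replicate_ok _ g w _ (by omega) (by linarith)
      · omega
      · nlinarith
  · intro Zs' R' hZs' hR' hc1 hc2
    by_cases hk0 : k3 = 0
    · rw [hk0]
      simp [Emb]
    have hjlt : j1 < k2 := by omega
    have hj2 := hj1' hjlt
    rw [List.length_append, List.length_replicate] at hc1
    rw [List.sum_append, List.sum_replicate, smul_eq_mul] at hc2
    set A' := (univ \ ((Z \ Zf) \ Zs')) \ (R \ R') with hA'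
    set T' := ((Z ∪ B) \ (Bad ∪ Zf)) \ ((Z \ Zf) \ Zs') with hT'
    have hphase := phase H (fun _ => (1 : ℝ)) (fun _ => zero_le_one) 1 γ2 m2 ρ2 (fun _ => le_rfl)
      zero_le_one hm2 hρ2 hγ2 [] (List.replicate k3 g) A' Zf T' ?_ ?_ ?_ ?_ ?_ ?_ ?_
    · simpa using hphase
    · exact set1 Z B Zf Bad Zs' R'
    · exact set2 Z B Zf Bad Zs' R'
    · exact set6 Z B Zf Bad _
    · intro x hx
      simp only [hT', mem_sdiff, mem_union, not_or] at hx
      rw [sum_const, nsmul_eq_mul, mul_one]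
      exact hnon2 x hx.1.1 hx.1.2.1 hx.1.2.2
    · rw [List.length_replicate, sum_const, nsmul_eq_mul, mul_one, mul_one]
      have : (k3 : ℝ) ≤ k2 := by exact_mod_cast hk32
      linarith
    · apply replicate_ok ρ2 g w hgρ (by omega) hρ20
      -- count
      have c1 : A' ⊆ T' ∪ Zf ∪ Bad ∪ R' := set3 Z B Zf Bad Zs' R'
      have c2 : A'.card ≤ T'.card + Zf.card + Bad.card + R'.card := by
        refine (card_le_card c1).trans ((card_union_le _ _).trans ?_)
        gcongr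
        refine (card_union_le _ _).trans ?_
        gcongr
        exact card_union_le _ _
      have c3 : Fintype.card V ≤ A'.card + ((Z \ Zf) \ Zs').card + (R \ R').card := by
        have h := card_le_card (set4 ((Z \ Zf) \ Zs') (R \ R'))
        rw [card_univ] at h
        refine h.trans ((card_union_le _ _).trans ?_)
        gcongr
        exact card_union_le _ _
      have c4 : (R \ R').card = R.card - R'.card := card_sdiff_of_subset hR'
      have c5 : R'.card ≤ R.card := card_le_card hR'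
      have e1 : k2 * (g + 1) = j1 * g + j1 + k3 * g + k3 := by rw [hk3]; ring
      have e2 : (j1 + 1) * g = j1 * g + g := by ring
      have e3 : lm.sum ≤ R.card := by omega
      omega
    · intro Zs'' R'' _ _ _ _
      trivial

end Pool.Agent.H866R3
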