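import Pool.Agent.H866R3.Emb
set_option autoImplicit false
open Finset
open scoped Classical

namespace Pool.Agent.H866R3

variable {V : Type*}

/-- The sizes in the list are at most a `ρ`-fraction of what remains. -/
def OK (ρ : ℝ) : List ℕ → ℕ → Prop
  | [], _ => True
  | s :: l, r => (s : ℝ) ≤ ρ * r ∧ s ≤ r ∧ OK ρ l (r - s)

theorem exists_center (H : SimpleGraph V) (μ : V → ℝ) (hμ : ∀ z, 0 ≤ μ z) (γ m0 ρ : ℝ)
    (hm0 : 0 < m0) (hρ : ρ ≤ 1 - γ / m0) (hγ : 0 ≤ γ) (Zs R : Finset V)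
    (hnon : ∀ x ∈ R, ∑ z ∈ Zs.filter (fun z => ¬ H.Adj z x), μ z ≤ γ)
    (hmass : m0 ≤ ∑ z ∈ Zs, μ z) :
    ∃ z ∈ Zs, ρ * R.card ≤ ((R.filter (fun x => H.Adj z x)).card : ℝ) := by
  by_contra hcon
  push Not at hcon
  have h1 : ∑ z ∈ Zs, μ z * ((R.filter (fun x => ¬ H.Adj z x)).card : ℝ) ≤ γ * R.card := by
    calc ∑ z ∈ Zs, μ z * ((R.filter (fun x => ¬ H.Adj z x)).card : ℝ)
        = ∑ z ∈ Zs, ∑ x ∈ R, if ¬ H.Adj z x then μ z else 0 := by
          apply sum_congr rfl
          intro z _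
          rw [← sum_filter, sum_const, nsmul_eq_mul, mul_comm]
      _ = ∑ x ∈ R, ∑ z ∈ Zs, if ¬ H.Adj z x then μ z else 0 := sum_comm
      _ = ∑ x ∈ R, ∑ z ∈ Zs.filter (fun z => ¬ H.Adj z x), μ z := by
          apply sum_congr rfl
          intro x _
          rw [sum_filter]
      _ ≤ ∑ x ∈ R, γ := sum_le_sum hnon
      _ = γ * R.card := by rw [sum_const, nsmul_eq_mul, mul_comm]
  have hsplit : ∀ z, ((R.filter (fun x => H.Adj z x)).card : ℝ) +
      ((R.filter (fun x => ¬ H.Adj z x)).card : ℝ) = R.card := by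
    intro z
    exact_mod_cast card_filter_add_card_filter_not (s := R) (fun x => H.Adj z x)
  have h2 : ∀ z ∈ Zs, γ / m0 * R.card < ((R.filter (fun x => ¬ H.Adj z x)).card : ℝ) := by
    intro z hz
    have h3 := hcon z hz
    have h4 := hsplit z
    have h5 : ρ * (R.card : ℝ) ≤ (1 - γ / m0) * R.card :=
      mul_le_mul_of_nonneg_right hρ (Nat.cast_nonneg _)
    linarith
  obtain ⟨z0, hz0, hz0'⟩ : ∃ z ∈ Zs, 0 < μ z := by
    by_contra h
    push Not at h
    have : ∑ z ∈ Zs, μ z ≤ 0 := sum_nonpos h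
    linarith
  have h3 : ∑ z ∈ Zs, μ z * (γ / m0 * R.card) <
      ∑ z ∈ Zs, μ z * ((R.filter (fun x => ¬ H.Adj z x)).card : ℝ) := by
    apply sum_lt_sum
    · intro z hz
      exact mul_le_mul_of_nonneg_left (h2 z hz).le (hμ z)
    · exact ⟨z0, hz0, mul_lt_mul_of_pos_left (h2 z0 hz0) hz0'⟩
  rw [← sum_mul] at h3
  have h4 : m0 * (γ / m0 * R.card) ≤ (∑ z ∈ Zs, μ z) * (γ / m0 * R.card) :=
    mul_le_mul_of_nonneg_right hmass (by positivity)
  have h5 : m0 * (γ / m0 * R.card) = γ * R.card := by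
    field_simp
  linarith

theorem phase (H : SimpleGraph V) (μ : V → ℝ) (hμ : ∀ z, 0 ≤ μ z) (κ γ m0 ρ : ℝ)
    (hκ : ∀ z, μ z ≤ κ) (hκ0 : 0 ≤ κ) (hm0 : 0 < m0) (hρ : ρ ≤ 1 - γ / m0) (hγ : 0 ≤ γ)
    (l2 : List ℕ) :
    ∀ (l : List ℕ) (A Zs R : Finset V), Zs ⊆ A → R ⊆ A → Disjoint Zs R →
      (∀ x ∈ R, ∑ z ∈ Zs.filter (fun z => ¬ H.Adj z x), μ z ≤ γ) →
      m0 + l.length * κ ≤ ∑ z ∈ Zs, μ z →
      OK ρ l R.card →
      (∀ Zs' R' : Finset V, Zs' ⊆ Zs → R' ⊆ R → (Zs \ Zs').card = l.length →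
        R'.card + l.sum = R.card → Emb H ((A \ (Zs \ Zs')) \ (R \ R')) l2) →
      Emb H A (l ++ l2)
  | [], A, Zs, R, _, _, _, _, _, _, hfin => by
    have := hfin Zs R (Subset.refl _) (Subset.refl _) (by simp) (by simp)
    simpa using this
  | s :: l, A, Zs, R, hZA, hRA, hdis, hnon, hmass, hOK, hfin => by
    obtain ⟨hs1, hs2, hOK'⟩ := hOK
    have hlen : (((s :: l).length : ℕ) : ℝ) = l.length + 1 := by simp
    rw [hlen] at hmass
    have hl0 : (0 : ℝ) ≤ l.length := Nat.cast_nonneg _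
    obtain ⟨z, hz, hdeg⟩ := exists_center H μ hμ γ m0 ρ hm0 hρ hγ Zs R hnon
      (by nlinarith)
    have hsR : s ≤ (R.filter (fun x => H.Adj z x)).card := by
      exact_mod_cast hs1.trans hdeg
    obtain ⟨L, hL, hLcard⟩ := exists_subset_card_eq hsR
    have hLR : L ⊆ R := hL.trans (filter_subset _ _)
    have hzR : z ∉ R := fun h => (disjoint_left.1 hdis) hz h
    refine ⟨z, hZA hz, L, ?_, hLcard, ?_, ?_⟩
    · intro x hx
      rw [mem_erase]
      exact ⟨fun h => hzR (h ▸ hLR hx), hRA (hLR hx)⟩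
    · intro x hx
      exact (mem_filter.1 (hL hx)).2
    · apply phase H μ hμ κ γ m0 ρ hκ hκ0 hm0 hρ hγ l2 l (A.erase z \ L) (Zs.erase z) (R \ L)
      · intro x hx
        rw [mem_erase] at hx
        rw [mem_sdiff, mem_erase]
        exact ⟨⟨hx.1, hZA hx.2⟩, fun h => (disjoint_left.1 hdis) hx.2 (hLR h)⟩
      · intro x hx
        rw [mem_sdiff] at hx
        rw [mem_sdiff, mem_erase]
        exact ⟨⟨fun h => hzR (h ▸ hx.1), hRA hx.1⟩, hx.2⟩
      · exact disjoint_of_subset_left (erase_subset _ _) (disjoint_of_subset_right sdiff_subset hdis)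
      · intro x hx
        refine le_trans ?_ (hnon x (mem_sdiff.1 hx).1)
        apply sum_le_sum_of_subset_of_nonneg
        · exact filter_subset_filter _ (erase_subset _ _)
        · intro i _ _
          exact hμ i
      · rw [← add_sum_erase _ _ hz] at hmass
        have := hκ z
        linarith
      · rw [card_sdiff_of_subset hLR, hLcard]
        exact hOK'
      · intro Zs' R' hZ' hR' hc1 hc2
        have h1 : Zs' ⊆ Zs := hZ'.trans (erase_subset _ _)
        have h2 : R' ⊆ R := hR'.trans sdiff_subset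
        have hzZ' : z ∉ Zs' := fun h => by
          have := hZ' h
          simp at this
        have e1 : Zs \ Zs' = insert z (Zs.erase z \ Zs') := by
          ext x
          simp only [mem_sdiff, mem_insert, mem_erase]
          constructor
          · rintro ⟨h3, h4⟩
            by_cases hx : x = z
            · exact Or.inl hx
            · exact Or.inr ⟨⟨hx, h3⟩, h4⟩
          · rintro (rfl | ⟨⟨_, h3⟩, h4⟩)
            · exact ⟨hz, hzZ'⟩
            · exact ⟨h3, h4⟩
        have e2 : R \ R' = L ∪ ((R \ L) \ R') := by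
          ext x
          simp only [mem_sdiff, mem_union]
          constructor
          · rintro ⟨h3, h4⟩
            by_cases hx : x ∈ L
            · exact Or.inl hx
            · exact Or.inr ⟨⟨h3, hx⟩, h4⟩
          · rintro (h3 | ⟨⟨h3, _⟩, h4⟩)
            · refine ⟨hLR h3, fun h4 => ?_⟩
              have := hR' h4
              rw [mem_sdiff] at this
              exact this.2 h3
            · exact ⟨h3, h4⟩
        have h3 := hfin Zs' R' h1 h2 (by
          rw [e1, card_insert_of_notMem (by simp), hc1]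
          simp) (by
          rw [card_sdiff_of_subset hLR, hLcard] at hc2
          rw [List.sum_cons]
          omega)
        convert h3 using 1
        rw [e1, e2]
        ext x
        simp only [mem_sdiff, mem_union, mem_insert, mem_erase]
        tauto

end Pool.Agent.H866R3
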