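import Pool.Agent.H866R3.Phase
set_option autoImplicit false
open Finset

namespace Pool.Agent.H866R3

/-- Sizes of the main stars: about a `(4q-1)/(8q)` fraction of what remains. -/
def mainList (q T0 : ℕ) (r : ℕ) : List ℕ :=
  if h : r ≤ T0 ∨ r = 0 then [r - 1] else
    (((4 * q - 1) * r) / (8 * q)) :: mainList q T0 (r - ((4 * q - 1) * r) / (8 * q) - 1)
termination_by r
decreasing_by
  generalize ((4 * q - 1) * r) / (8 * q) = s
  omega

theorem step_bound (q r : ℕ) (hq : 1 ≤ q) :
    8 * q * (((4 * q - 1) * r) / (8 * q)) ≤ (4 * q - 1) * r ∧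
      (4 * q - 1) * r < 8 * q * (((4 * q - 1) * r) / (8 * q)) + 8 * q := by
  have h8 : 0 < 8 * q := by omega
  constructor
  · exact Nat.mul_div_le _ _
  · have := Nat.lt_mul_div_succ ((4 * q - 1) * r) h8
    nlinarith

theorem step_half (q r : ℕ) (hq : 1 ≤ q) : 2 * (((4 * q - 1) * r) / (8 * q)) ≤ r := by
  have h := (step_bound q r hq).1
  obtain ⟨p, hp⟩ : ∃ p, 4 * q - 1 = p ∧ p + 1 = 4 * q := ⟨4 * q - 1, rfl, by omega⟩
  by_contra hcon
  push Not at hcon
  rw [hp.1] at h hcon
  have h1 : 8 * q = 2 * p + 2 := by omega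
  rw [h1] at h hcon
  nlinarith

theorem step_third (q r : ℕ) (hq : 1 ≤ q) : 3 * r < 8 * (((4 * q - 1) * r) / (8 * q)) + 8 := by
  have h := (step_bound q r hq).2
  obtain ⟨p, hp⟩ : ∃ p, 4 * q - 1 = p ∧ p + 1 = 4 * q := ⟨4 * q - 1, rfl, by omega⟩
  by_contra hcon
  push Not at hcon
  set s := ((4 * q - 1) * r) / (8 * q) with hs
  rw [hp.1] at h
  have h2 : q * (8 * s + 8) ≤ q * (3 * r) := Nat.mul_le_mul_left _ hcon
  have h3 : 3 * q ≤ p := by omega
  have h4 : 3 * q * r ≤ p * r := Nat.mul_le_mul_right _ h3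
  nlinarith

theorem mainList_sum (q T0 : ℕ) (hq : 1 ≤ q) (hT : 8 ≤ T0) : ∀ r : ℕ, 2 ≤ r →
    ((mainList q T0 r).map (· + 1)).sum = r ∧ ∀ s ∈ mainList q T0 r, 1 ≤ s := by
  intro r
  induction r using Nat.strong_induction_on with
  | _ r ih =>
    intro hr
    rw [mainList]
    split_ifs with h
    · simp only [List.map_cons, List.map_nil, List.sum_cons, List.sum_nil, List.mem_singleton,
        forall_eq]
      omega
    · push Not at h
      have h1 := step_half q r hq
      have h2 := step_third q r hq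
      set s := ((4 * q - 1) * r) / (8 * q) with hs
      obtain ⟨ih1, ih2⟩ := ih (r - s - 1) (by omega) (by omega)
      constructor
      · rw [List.map_cons, List.sum_cons, ih1]
        omega
      · intro t ht
        rw [List.mem_cons] at ht
        rcases ht with rfl | ht
        · omega
        · exact ih2 t ht

theorem mainList_length (q T0 : ℕ) (hq : 1 ≤ q) (hT : 8 ≤ T0) : ∀ (j r : ℕ),
    (4 * q + 1) ^ j * r ≤ (8 * q) ^ j * T0 → (mainList q T0 r).length ≤ j + 1 := by
  intro j
  induction j with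
  | zero =>
    intro r h
    rw [mainList, dif_pos (Or.inl (by simpa using h))]
    simp
  | succ j ih =>
    intro r h
    rw [mainList]
    split_ifs with h'
    · simp
    · rw [List.length_cons]
      have h2 := (step_bound q r hq).2
      have h1 := step_half q r hq
      generalize ((4 * q - 1) * r) / (8 * q) = s at h1 h2 ⊢
      have := ih (r - s - 1) (by
        obtain ⟨r', hr'⟩ : ∃ r', r = r' + s + 1 := ⟨r - s - 1, by omega⟩
        have e : r - s - 1 = r' := by omega
        rw [e]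
        obtain ⟨p, hp⟩ : ∃ p, 4 * q - 1 = p ∧ p + 1 = 4 * q := ⟨4 * q - 1, rfl, by omega⟩
        rw [hp.1] at h2
        have h3 : 8 * q * r' ≤ (4 * q + 1) * r := by
          have h8 : 8 * q = 2 * p + 2 := by omega
          have h9 : 4 * q + 1 = p + 2 := by omega
          rw [h8] at h2 ⊢
          rw [h9]
          subst hr'
          nlinarith
        have h4 : (8 * q) * ((4 * q + 1) ^ j * r') ≤ (8 * q) * ((8 * q) ^ j * T0) := by
          calc (8 * q) * ((4 * q + 1) ^ j * r') = (4 * q + 1) ^ j * (8 * q * r') := by ring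
            _ ≤ (4 * q + 1) ^ j * ((4 * q + 1) * r) := Nat.mul_le_mul_left _ h3
            _ = (4 * q + 1) ^ (j + 1) * r := by ring
            _ ≤ (8 * q) ^ (j + 1) * T0 := h
            _ = _ := by ring
        exact Nat.le_of_mul_le_mul_left h4 (by omega))
      omega

theorem mainList_ok (q T0 D : ℕ) (hq : 1 ≤ q) (hD : 3 * T0 ≤ D) : ∀ (r R : ℕ), r + D ≤ R →
    OK ((4 * q - 1 : ℝ) / (8 * q)) (mainList q T0 r) R := by
  intro r
  induction r using Nat.strong_induction_on with
  | _ r ih =>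
    intro R hR
    have hq' : (1 : ℝ) ≤ q := by exact_mod_cast hq
    rw [mainList]
    split_ifs with h
    · refine ⟨?_, by omega, trivial⟩
      have h1 : r - 1 ≤ T0 := by omega
      have h1' : ((r - 1 : ℕ) : ℝ) ≤ T0 := by exact_mod_cast h1
      have h2 : (3 * T0 : ℝ) ≤ R := by exact_mod_cast (by omega : 3 * T0 ≤ R)
      have h3 : (3 / 8 : ℝ) ≤ (4 * q - 1 : ℝ) / (8 * q) := by
        rw [div_le_div_iff₀ (by norm_num) (by positivity)]
        nlinarith
      have h4 : (0 : ℝ) ≤ T0 := Nat.cast_nonneg _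
      calc ((r - 1 : ℕ) : ℝ) ≤ T0 := h1'
        _ ≤ 3 / 8 * (3 * T0) := by linarith
        _ ≤ (4 * q - 1 : ℝ) / (8 * q) * R := by gcongr
    · push Not at h
      have h1 := step_half q r hq
      have h2 := (step_bound q r hq).1
      set s := ((4 * q - 1) * r) / (8 * q) with hs
      refine ⟨?_, by omega, ih (r - s - 1) (by omega) (R - s) (by omega)⟩
      have h3 : (8 * q : ℝ) * s ≤ (4 * q - 1) * r := by
        have : ((8 * q * s : ℕ) : ℝ) ≤ (((4 * q - 1) * r : ℕ) : ℝ) := by exact_mod_cast h2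
        rw [Nat.cast_mul, Nat.cast_mul, Nat.cast_mul, Nat.cast_sub (by omega)] at this
        push_cast at this
        linarith
      have h4 : (r : ℝ) ≤ R := by exact_mod_cast (by omega : r ≤ R)
      have h5 : (s : ℝ) ≤ (4 * q - 1 : ℝ) / (8 * q) * r := by
        rw [div_mul_eq_mul_div, le_div_iff₀ (by positivity)]
        linarith
      refine h5.trans ?_
      apply mul_le_mul_of_nonneg_left h4
      apply div_nonneg <;> nlinarith

theorem replicate_ok (ρ : ℝ) (g B : ℕ) (hB : (g : ℝ) ≤ ρ * B) (hgB : g ≤ B) (hρ : 0 ≤ ρ) :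
    ∀ (j R : ℕ), B + j * g ≤ R + g → OK ρ (List.replicate j g) R := by
  intro j
  induction j with
  | zero => intro R _; trivial
  | succ j ih =>
    intro R hR
    rw [List.replicate_succ]
    have h1 : B + j * g ≤ R := by
      have : (j + 1) * g = j * g + g := by ring
      omega
    have h0 : B ≤ R := by
      have : 0 ≤ j * g := Nat.zero_le _
      omega
    refine ⟨?_, by omega, ih (R - g) (by omega)⟩
    refine hB.trans ?_
    have : (B : ℝ) ≤ R := by exact_mod_cast h0
    gcongr

theorem OK_append (ρ : ℝ) : ∀ (l1 l2 : List ℕ) (R : ℕ), OK ρ l1 R → OK ρ l2 (R - l1.sum) →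
    OK ρ (l1 ++ l2) R
  | [], l2, R, _, h2 => by simpa using h2
  | s :: l1, l2, R, h1, h2 => by
    refine ⟨h1.1, h1.2.1, OK_append ρ l1 l2 _ h1.2.2 ?_⟩
    rw [List.sum_cons] at h2
    rwa [Nat.sub_sub]

end Pool.Agent.H866R3
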