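import Pool.Agent.H866R3.Core4
set_option autoImplicit false
open Finset Filter Topology
open scoped Classical

namespace Pool.Agent.H866R3

/-- The number `v` belonging to `n`. -/
def vOf (q n : ℕ) : ℕ := Nat.clog 2 n / (q * cC q) + 1

theorem starList_card (q v n : ℕ) (L : Large q v n) :
    ((starList q v n).map (· + 1)).sum = n ∧ ∀ s ∈ starList q v n, 1 ≤ s := by
  have hk2 := k2_pos q
  have hv1 : 1 ≤ v := by
    have := L.hv
    have : 1 ≤ 8 * (q + 4) := by omega
    nlinarith
  have h8 : 8 ≤ cC q * v := by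
    unfold cC
    nlinarith
  have h2 := L.hn2
  obtain ⟨h3, h4⟩ := mainList_sum q (cC q * v) L.hq h8 (n - k2 q * (v + 1)) (by omega)
  constructor
  · unfold starList
    rw [List.map_append, List.sum_append, h3, List.map_replicate, List.sum_replicate, smul_eq_mul]
    omega
  · intro s hs
    unfold starList at hs
    rw [List.mem_append] at hs
    rcases hs with hs | hs
    · exact h4 s hs
    · rw [List.mem_replicate] at hs
      omega

theorem eventually_large (q : ℕ) (hq : 1 ≤ q) : ∃ n0 : ℕ, ∀ n, n0 ≤ n → Large q (vOf q n) n := by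
  have hCpos : 0 < cC q := by unfold cC; omega
  have hqC : 0 < q * cC q := Nat.mul_pos hq hCpos
  have h80 : 80 ≤ q * cC q := by
    unfold cC
    nlinarith
  -- eventual statements in `v`
  have hlin : ∀ a b : ℕ, ∀ᶠ v : ℕ in atTop, a * v + b ≤ 2 ^ v := by
    intro a b
    have h1 := tendsto_pow_const_div_const_pow_of_one_lt 1 (by norm_num : (1 : ℝ) < 2)
    have h2 : ∀ᶠ v : ℕ in atTop, (v : ℝ) ^ 1 / 2 ^ v < 1 / (a + b + 1) :=
      h1.eventually (gt_mem_nhds (by positivity))
    filter_upwards [h2, eventually_ge_atTop 1] with v hv hv1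
    rw [pow_one, div_lt_div_iff₀ (by positivity) (by positivity), one_mul] at hv
    have h3 : v * (a + b + 1) < 2 ^ v := by exact_mod_cast hv
    nlinarith
  have hexp : ∀ᶠ v : ℕ in atTop, (2 * (cK q * (cC q * v)) : ℝ) *
      Real.exp (-(2 * (1 / (16 * (q + 4)) : ℝ) ^ 2 * v)) < 1 := by
    set c : ℝ := 2 * (1 / (16 * (q + 4)) : ℝ) ^ 2 with hc
    have hc0 : 0 < c := by positivity
    have h1 : Tendsto (fun v : ℕ => (v : ℝ) * Real.exp (-c) ^ v) atTop (𝓝 0) :=
      tendsto_self_mul_const_pow_of_lt_one (Real.exp_pos _).le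
        (Real.exp_lt_one_iff.2 (by linarith))
    have h2 : Tendsto (fun v : ℕ => (2 * (cK q * cC q) : ℝ) * ((v : ℝ) * Real.exp (-c) ^ v)) atTop
        (𝓝 (2 * (cK q * cC q) * 0)) := h1.const_mul _
    rw [mul_zero] at h2
    filter_upwards [h2.eventually (gt_mem_nhds one_pos)] with v hv
    refine lt_of_le_of_lt (le_of_eq ?_) hv
    rw [← Real.exp_nat_mul]
    have : (v : ℝ) * -c = -(c * v) := by ring
    rw [this]
    ring
  have hall : ∀ᶠ v : ℕ in atTop, 8 * (q + 4) * k2 q ≤ v ∧
      ((q + 7) * cC q) * v + 0 ≤ 2 ^ v ∧ (cK q * cC q) * v + 0 ≤ 2 ^ v ∧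
      k2 q * v + (k2 q + 2) ≤ 2 ^ v ∧ (2 * (cK q * (cC q * v)) : ℝ) *
      Real.exp (-(2 * (1 / (16 * (q + 4)) : ℝ) ^ 2 * v)) < 1 ∧ 2 ≤ v := by
    filter_upwards [eventually_ge_atTop (8 * (q + 4) * k2 q), hlin ((q + 7) * cC q) 0,
      hlin (cK q * cC q) 0, hlin (k2 q) (k2 q + 2), hexp, eventually_ge_atTop 2] with v h1 h2 h3 h4 h5 h6
    exact ⟨h1, h2, h3, h4, h5, h6⟩
  obtain ⟨v0, hv0⟩ := eventually_atTop.1 hall
  refine ⟨2 ^ (q * cC q * v0) + 1, fun n hn => ?_⟩
  have hclog : q * cC q * v0 < Nat.clog 2 n := by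
    rw [Nat.lt_clog_iff_pow_lt (by norm_num)]
    omega
  have hv : v0 ≤ vOf q n := by
    unfold vOf
    have : v0 ≤ Nat.clog 2 n / (q * cC q) := by
      rw [Nat.le_div_iff_mul_le hqC, mul_comm]
      exact hclog.le
    omega
  obtain ⟨h1, h2, h3, h4, h5, h6⟩ := hv0 _ hv
  set v := vOf q n with hvdef
  have hn1 : n ≤ 2 ^ (q * (cC q * v)) := by
    refine (Nat.le_pow_clog (by norm_num : 1 < 2) n).trans ?_
    apply Nat.pow_le_pow_right (by norm_num)
    have := Nat.lt_mul_div_succ (Nat.clog 2 n) hqC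
    rw [hvdef]
    unfold vOf
    rw [← mul_assoc]
    exact this.le
  have hlow : 2 ^ v ≤ n := by
    have h7 : q * cC q * (v - 1) ≤ Nat.clog 2 n := by
      have : v - 1 = Nat.clog 2 n / (q * cC q) := by
        rw [hvdef]; unfold vOf; exact Nat.add_sub_cancel _ _
      rw [this]
      exact Nat.mul_div_le _ _
    have h8 : v + 1 ≤ Nat.clog 2 n := by
      have : 80 * (v - 1) ≤ q * cC q * (v - 1) := Nat.mul_le_mul_right _ h80
      omega
    have h9 : v < Nat.clog 2 n := by omega
    rw [Nat.lt_clog_iff_pow_lt (by norm_num)] at h9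
    exact h9.le
  refine ⟨hq, h1, hn1, ?_, ?_, ?_, h5⟩
  · have h7 : (q + 7) * (cC q * v) ≤ 2 ^ v := by
      rw [← mul_assoc]; omega
    refine h7.trans (Nat.pow_le_pow_right (by norm_num) ?_)
    rw [← mul_assoc]
    exact Nat.le_mul_of_pos_left _ hqC
  · have h7 : cK q * (cC q * v) ≤ 2 ^ v := by
      rw [← mul_assoc]; omega
    omega
  · have : k2 q * (v + 1) + 2 = k2 q * v + (k2 q + 2) := by ring
    omega

/-- The upper bound. -/
theorem upper (q : ℕ) (hq : 1 ≤ q) : ∃ n0 : ℕ, ∀ n, n0 ≤ n →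
    ∃ G : SimpleGraph (Fin n), (∀ v, ∃ w, G.Adj v w) ∧
      ∀ H : SimpleGraph (Fin (n + (q + 7) * (cC q * vOf q n))), G.IsContained H ∨ G.IsContained Hᶜ := by
  obtain ⟨n0, hn0⟩ := eventually_large q hq
  refine ⟨n0, fun n hn => ?_⟩
  have L := hn0 n hn
  set v := vOf q n with hv
  obtain ⟨hcard, hpos⟩ := starList_card q v n L
  set l := starList q v n with hl
  have e : Fin n ≃ SF l := (Fintype.equivFinOfCardEq (by rw [card_SF, hcard])).symm
  refine ⟨(starForest l).comap e, ?_, ?_⟩
  · intro a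
    obtain ⟨b, hb⟩ := SF_exists_adj l hpos (e a)
    refine ⟨e.symm b, ?_⟩
    rw [SimpleGraph.comap_adj, e.apply_symm_apply]
    exact hb
  · intro H
    have hemb : ∀ H' : SimpleGraph (Fin (n + (q + 7) * (cC q * v))), Emb H' univ l →
        ((starForest l).comap e).IsContained H' := by
      intro H' h
      obtain ⟨φ, hφ, hφ2, -⟩ := Emb.exists_map H' l univ h
      exact ⟨⟨⟨fun a => φ (e a), fun {a b} hab => hφ2 _ _ hab⟩, fun a b hab => e.injective (hφ hab)⟩⟩
    rcases core H q v n L (by rw [Fintype.card_fin]) with h | h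
    · exact Or.inl (hemb _ h)
    · exact Or.inr (hemb _ h)

/-- Finite Ramsey theorem. -/
theorem ramsey_finset (s : ℕ) : ∀ t : ℕ, ∃ N : ℕ, ∀ (V : Type) (H : SimpleGraph V) (A : Finset V),
    N ≤ A.card → (∃ S ⊆ A, H.IsNClique s S) ∨ (∃ S ⊆ A, Hᶜ.IsNClique t S) := by
  induction s with
  | zero =>
    intro t
    exact ⟨0, fun V H A _ => Or.inl ⟨∅, empty_subset _, by simp [SimpleGraph.isNClique_iff]⟩⟩
  | succ s ihs =>
    intro t
    induction t with
    | zero =>
      exact ⟨0, fun V H A _ => Or.inr ⟨∅, empty_subset _, by simp [SimpleGraph.isNClique_iff]⟩⟩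
    | succ t iht =>
      obtain ⟨N1, h1⟩ := ihs (t + 1)
      obtain ⟨N2, h2⟩ := iht
      refine ⟨N1 + N2 + 1, fun V H A hA => ?_⟩
      obtain ⟨x, hx⟩ : A.Nonempty := by
        rw [← card_pos]; omega
      have hc := card_filter_add_card_filter_not (s := A.erase x) (fun y => H.Adj x y)
      rw [card_erase_of_mem hx] at hc
      by_cases hN : N1 ≤ ((A.erase x).filter (fun y => H.Adj x y)).card
      · rcases h1 V H _ hN with ⟨S, hS, hcl⟩ | ⟨S, hS, hcl⟩
        · left
          refine ⟨insert x S, ?_, ?_⟩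
          · intro y hy
            rw [mem_insert] at hy
            rcases hy with rfl | hy
            · exact hx
            · exact mem_of_mem_erase (mem_filter.1 (hS hy)).1
          · exact hcl.insert (fun b hb => (mem_filter.1 (hS hb)).2)
        · right
          exact ⟨S, fun y hy => mem_of_mem_erase (mem_filter.1 (hS hy)).1, hcl⟩
      · have hN' : N2 ≤ ((A.erase x).filter (fun y => ¬ H.Adj x y)).card := by omega
        rcases h2 V H _ hN' with ⟨S, hS, hcl⟩ | ⟨S, hS, hcl⟩
        · left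
          exact ⟨S, fun y hy => mem_of_mem_erase (mem_filter.1 (hS hy)).1, hcl⟩
        · right
          refine ⟨insert x S, ?_, ?_⟩
          · intro y hy
            rw [mem_insert] at hy
            rcases hy with rfl | hy
            · exact hx
            · exact mem_of_mem_erase (mem_filter.1 (hS hy)).1
          · refine hcl.insert (fun b hb => ?_)
            have := mem_filter.1 (hS hb)
            rw [SimpleGraph.compl_adj]
            exact ⟨fun h => (ne_of_mem_erase this.1) h.symm, this.2⟩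

theorem ramsey_exists {n : ℕ} (G : SimpleGraph (Fin n)) :
    ∃ N : ℕ, ∀ H : SimpleGraph (Fin N), G.IsContained H ∨ G.IsContained Hᶜ := by
  obtain ⟨N, hN⟩ := ramsey_finset n n
  refine ⟨N, fun H => ?_⟩
  have htop : G.IsContained (SimpleGraph.completeGraph (Fin n)) := SimpleGraph.IsContained.of_le le_top
  rcases hN (Fin N) H univ (by simp) with ⟨S, -, hS⟩ | ⟨S, -, hS⟩
  · left
    exact htop.trans ((SimpleGraph.not_cliqueFree_iff_top_isContained n).1 (fun h => h S hS))
  · right
    exact htop.trans ((SimpleGraph.not_cliqueFree_iff_top_isContained n).1 (fun h => h S hS))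

end Pool.Agent.H866R3
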